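import Pool.Agent.helper75.AU.SpecR

set_option linter.unusedVariables false
set_option linter.unusedSectionVars false

namespace Pool.Agent.helper75.AU

open scoped Classical
open Pool.Agent.helper53.AU MulAction

section

variable {k G X : Type} [Field k] [CharP k 3] [Group G] [Fintype G] [MulAction G X] [Fintype X]
  {g : ℕ}

/-- an element of `r`-power order, `r ≠ 3` prime, fixing `x` is not wild -/
theorem F3ac_tame (R : Ram k G X g) (x : X) (s : G) (hs : s • x = x) (h1 : s ≠ 1) (r n : ℕ)
    (hr : r.Prime) (hr3 : r ≠ 3) (h2 : s ^ (r ^ n) = 1) : R.i x s = 0 := by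
  by_contra h
  obtain ⟨m, hm⟩ := R.wild x s hs h1 (Nat.one_le_iff_ne_zero.2 h)
  apply h1
  have h3 : orderOf s ∣ r ^ n := orderOf_dvd_of_pow_eq_one h2
  have h4 : orderOf s ∣ 3 ^ m := orderOf_dvd_of_pow_eq_one hm
  have h5 : Nat.Coprime (r ^ n) (3 ^ m) :=
    Nat.Coprime.pow _ _ ((Nat.coprime_primes hr Nat.prime_three).2 hr3)
  have h6 : orderOf s = 1 := Nat.eq_one_of_dvd_coprimes h5 h3 h4
  exact orderOf_eq_one_iff.1 h6

/-- an `r`-subgroup fixing a point is cyclic -/
theorem F3ac_cyclic (R : Ram k G X g) (x : X) (A : Subgroup G) (r : ℕ) (hr : r.Prime)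
    (hr3 : r ≠ 3) (hA : IsPGroup r A) (hx : ∀ s ∈ A, s • x = x) : IsCyclic A := by
  let f : A →* stabilizer G x := Subgroup.inclusion (fun s hs => hx s hs)
  let g : A →* k := (Units.coeHom k).comp ((R.θ x).comp f)
  have hg : Function.Injective g := by
    rw [injective_iff_map_eq_one]
    intro s hs
    have h1 : R.θ x (f s) = 1 := Units.ext hs
    rcases (R.tame x (f s)).1 h1 with h | h
    · exact Subtype.ext h
    · by_contra hne
      have hs1 : (s : G) ≠ 1 := fun h' => hne (Subtype.ext h')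
      obtain ⟨n, hn⟩ := hA s
      have h2 := F3ac_tame R x s (hx s s.2) hs1 r n hr hr3 (by simpa using congrArg Subtype.val hn)
      have h3 : ((f s : stabilizer G x) : G) = s := rfl
      rw [h3, h2] at h
      omega
  exact isCyclic_of_injective_ringHom g hg

/-- Riemann-Hurwitz for an `r`-subgroup -/
theorem F3ac_RH (R : Ram k G X g) (Q : Subgroup G) (r : ℕ) (hr : r.Prime)
    (hr3 : r ≠ 3) (hQ : IsPGroup r Q) :
    ∃ γ m : ℕ, 2 * (g : ℤ) - 2 = (Nat.card Q : ℤ) * (2 * (γ : ℤ) - 2) + (Nat.card Q : ℤ) * m -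
      (Nat.card X : ℤ) := by
  obtain ⟨γ, hγ⟩ := R.RH Q
  refine ⟨γ, Fintype.card (Quotient (orbitRel Q X)), ?_⟩
  rw [hγ]
  have hsum : ∀ x : X, (∑ s ∈ Finset.univ.filter
      (fun s : G => s ∈ Q ∧ s ≠ 1 ∧ s • x = x), ((R.i x s : ℤ) + 1)) =
      (∑ s : Q, if s • x = x then (1 : ℤ) else 0) - 1 := by
    intro x
    have h1 : (∑ s ∈ Finset.univ.filter
      (fun s : G => s ∈ Q ∧ s ≠ 1 ∧ s • x = x), ((R.i x s : ℤ) + 1)) =
      ∑ s ∈ Finset.univ.filter (fun s : G => s ∈ Q ∧ s ≠ 1 ∧ s • x = x), (1 : ℤ) := by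
      refine Finset.sum_congr rfl fun s hs => ?_
      simp only [Finset.mem_filter, Finset.mem_univ, true_and] at hs
      obtain ⟨n, hn⟩ := hQ ⟨s, hs.1⟩
      rw [F3ac_tame R x s hs.2.2 hs.2.1 r n hr hr3 (by simpa using congrArg Subtype.val hn)]
      simp
    rw [h1]
    have h2 : Finset.univ.filter (fun s : G => s ∈ Q ∧ s ≠ 1 ∧ s • x = x) =
        (Finset.univ.filter (fun s : G => s ∈ Q ∧ s • x = x)).erase 1 := by
      ext s
      simp only [Finset.mem_filter, Finset.mem_univ, true_and, Finset.mem_erase]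
      tauto
    have h3 : (1 : G) ∈ Finset.univ.filter (fun s : G => s ∈ Q ∧ s • x = x) := by
      simp [Q.one_mem]
    have h4 : (∑ s : Q, if s • x = x then (1 : ℤ) else 0) =
        ∑ s ∈ Finset.univ.filter (fun s : G => s ∈ Q ∧ s • x = x), (1 : ℤ) := by
      rw [← Finset.sum_filter]
      refine Finset.sum_bij (fun s _ => (s : G)) ?_ ?_ ?_ ?_
      · intro s hs
        simp only [Finset.mem_filter, Finset.mem_univ, true_and] at hs ⊢
        exact ⟨s.2, hs⟩
      · intro a _ b _ hab
        exact Subtype.ext hab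
      · intro s hs
        simp only [Finset.mem_filter, Finset.mem_univ, true_and] at hs
        exact ⟨⟨s, hs.1⟩, by simp only [Finset.mem_filter, Finset.mem_univ, true_and]; exact hs.2, rfl⟩
      · intro s _
        rfl
    rw [h2, h4]
    have h5 := Finset.sum_erase_add (Finset.univ.filter (fun s : G => s ∈ Q ∧ s • x = x))
      (fun _ => (1 : ℤ)) h3
    linarith
  rw [Finset.sum_congr rfl (fun x _ => hsum x), Finset.sum_sub_distrib, Finset.sum_comm]
  have hb := MulAction.sum_card_fixedBy_eq_card_orbits_mul_card_group Q X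
  have h6 : ∀ s : Q, (∑ x : X, if s • x = x then (1 : ℤ) else 0) = (Fintype.card (fixedBy X s) : ℤ) := by
    intro s
    rw [Finset.sum_boole, Fintype.card_subtype]
    rfl
  rw [Finset.sum_congr rfl (fun s _ => h6 s)]
  have h7 : (∑ s : Q, (Fintype.card (fixedBy X s) : ℤ)) =
      (Nat.card Q : ℤ) * (Fintype.card (Quotient (orbitRel Q X)) : ℤ) := by
    rw [Nat.card_eq_fintype_card]
    exact_mod_cast hb.trans (mul_comm _ _)
  rw [h7]
  simp
  ring

end

/-- F3a -/
theorem F3a : F3a_stmt := by
  intro k G X _ _ _ _ _ _ l R r Q hl hr h5 hrl hQ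
  have hr3 : r ≠ 3 := by omega
  have hfix : Q = ⊥ ∨ ∃ x : X, ∀ s ∈ Q, s • x = x := by
    by_cases hbot : Q = ⊥
    · exact Or.inl hbot
    right
    have hfact : Fact r.Prime := ⟨hr⟩
    have hnt : Nontrivial Q := (Subgroup.nontrivial_iff_ne_bot Q).2 hbot
    obtain ⟨γ, m, hγ⟩ := F3ac_RH R Q r hr hr3 hQ
    have hrQ : r ∣ Nat.card Q := by
      obtain ⟨n, hn⟩ := IsPGroup.iff_card.1 hQ
      rw [hn]
      apply dvd_pow_self
      rintro rfl
      rw [pow_zero] at hn
      have := Finite.one_lt_card (α := Q)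
      omega
    have hmod := hQ.card_modEq_card_fixedPoints X
    by_contra hno
    have hempty : IsEmpty (fixedPoints Q X) := by
      constructor
      rintro ⟨x, hx⟩
      exact hno ⟨x, fun s hs => hx ⟨s, hs⟩⟩
    have h0 : Nat.card (fixedPoints Q X) = 0 := Nat.card_of_isEmpty
    rw [h0] at hmod
    have hX : r ∣ Nat.card X := (Nat.modEq_zero_iff_dvd).1 hmod
    obtain ⟨a, ha⟩ := hrQ
    obtain ⟨b, hb⟩ := hX
    have h2l : (r : ℤ) ∣ 2 * (l : ℤ) := by
      have e : 2 * (l : ℤ) = 2 * ((l + 1 : ℕ) : ℤ) - 2 := by push_cast; ring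
      rw [e, hγ, ha, hb]
      push_cast
      exact ⟨a * (2 * γ - 2) + a * m - b, by ring⟩
    have h2l' : r ∣ 2 * l := by exact_mod_cast h2l
    rcases (Nat.Prime.dvd_mul hr).1 h2l' with h | h
    · have := Nat.le_of_dvd (by norm_num) h
      omega
    · exact hrl ((Nat.prime_dvd_prime_iff_eq hr hl).1 h)
  refine ⟨hfix, ?_⟩
  rcases hfix with h | ⟨x, hx⟩
  · rw [h]; infer_instance
  · exact F3ac_cyclic R x Q r hr hr3 hQ hx

/-- F3c -/
theorem F3c : F3c_stmt := by
  intro k G X _ _ _ _ _ _ l R hl h5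
  have hl3 : l ≠ 3 := by omega
  have hfact : Fact l.Prime := ⟨hl⟩
  have part1 : ∀ s : G, orderOf s = l → ∀ x : X, s • x ≠ x := by
    intro s hs x hx
    have hQ : IsPGroup l (Subgroup.zpowers s) := by
      apply IsPGroup.of_card (n := 1)
      rw [Nat.card_zpowers, hs, pow_one]
    obtain ⟨γ, m, hγ⟩ := F3ac_RH R (Subgroup.zpowers s) l hl hl3 hQ
    rw [Nat.card_zpowers, hs] at hγ
    -- number of orbits and fixed points: use the class equation mod and exact counting
    obtain ⟨γ', hγ'⟩ := R.RH (Subgroup.zpowers s)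
    rw [Nat.card_zpowers, hs] at hγ'
    have hterm : ∀ z : X, (∑ t ∈ Finset.univ.filter
        (fun t : G => t ∈ Subgroup.zpowers s ∧ t ≠ 1 ∧ t • z = z), ((R.i z t : ℤ) + 1)) =
        if s • z = z then ((l : ℤ) - 1) else 0 := by
      intro z
      split_ifs with hz
      · have h1 : (∑ t ∈ Finset.univ.filter
          (fun t : G => t ∈ Subgroup.zpowers s ∧ t ≠ 1 ∧ t • z = z), ((R.i z t : ℤ) + 1)) =
          ∑ t ∈ (Finset.univ.filter (fun t : G => t ∈ Subgroup.zpowers s)).erase 1, (1 : ℤ) := by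
          refine Finset.sum_congr ?_ ?_
          · ext t
            simp only [Finset.mem_filter, Finset.mem_univ, true_and, Finset.mem_erase]
            constructor
            · rintro ⟨h1, h2, h3⟩; exact ⟨h2, h1⟩
            · rintro ⟨h1, h2⟩
              refine ⟨h2, h1, ?_⟩
              have : Subgroup.zpowers s ≤ stabilizer G z := by
                rw [Subgroup.zpowers_le]; exact hz
              exact this h2
          · intro t ht
            simp only [Finset.mem_filter, Finset.mem_univ, true_and, Finset.mem_erase] at ht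
            have hfixt : t • z = z := by
              have : Subgroup.zpowers s ≤ stabilizer G z := by
                rw [Subgroup.zpowers_le]; exact hz
              exact this ht.2
            obtain ⟨n, hn⟩ := hQ ⟨t, ht.2⟩
            rw [F3ac_tame R z t hfixt ht.1 l n hl hl3 (by simpa using congrArg Subtype.val hn)]
            simp
        rw [h1]
        have h3 : (1 : G) ∈ Finset.univ.filter (fun t : G => t ∈ Subgroup.zpowers s) := by
          simp
        have h5 := Finset.sum_erase_add (Finset.univ.filter (fun t : G => t ∈ Subgroup.zpowers s))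
          (fun _ => (1 : ℤ)) h3
        have h6 : (∑ t ∈ Finset.univ.filter (fun t : G => t ∈ Subgroup.zpowers s), (1 : ℤ)) = l := by
          rw [Finset.sum_const, ← Fintype.card_subtype, ← Nat.card_eq_fintype_card]
          have : Nat.card {t : G // t ∈ Subgroup.zpowers s} = l := by
            rw [← hs]; exact Nat.card_zpowers s
          rw [this]; simp
        linarith
      · apply Finset.sum_eq_zero
        intro t ht
        simp only [Finset.mem_filter, Finset.mem_univ, true_and] at ht
        exfalso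
        apply hz
        -- t generates zpowers s
        have h1 : s ∈ Subgroup.zpowers t := by
          have h2 : orderOf t = l := by
            have h3 : orderOf t ∣ l := by
              rw [← hs]; exact orderOf_dvd_of_mem_zpowers ht.1
            rcases (Nat.dvd_prime hl).1 h3 with h | h
            · exact absurd (orderOf_eq_one_iff.1 h) ht.2.1
            · exact h
          have h4 : Subgroup.zpowers t = Subgroup.zpowers s := by
            apply Subgroup.eq_of_le_of_card_ge
            · rw [Subgroup.zpowers_le]; exact ht.1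
            · rw [Nat.card_zpowers, Nat.card_zpowers, h2, hs]
          rw [h4]; exact Subgroup.mem_zpowers s
        have h5 : Subgroup.zpowers t ≤ stabilizer G z := by
          rw [Subgroup.zpowers_le]; exact ht.2.2
        exact h5 h1
    rw [Finset.sum_congr rfl (fun z _ => hterm z), ← Finset.sum_filter, Finset.sum_const] at hγ'
    set f := (Finset.univ.filter (fun z : X => s • z = z)).card with hf
    have hfpos : 0 < f := by
      rw [hf, Finset.card_pos]
      exact ⟨x, by simp [hx]⟩
    have e : 2 * (l : ℤ) = 2 * ((l + 1 : ℕ) : ℤ) - 2 := by push_cast; ring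
    rw [← e] at hγ'
    simp only [nsmul_eq_mul] at hγ'
    -- l ∣ f
    have hlf : (l : ℤ) ∣ f := by
      refine ⟨(f : ℤ) + (2 * (γ' : ℤ) - 2) - 2, ?_⟩
      linarith
    have hlf' : l ∣ f := by exact_mod_cast hlf
    have hfl : (l : ℤ) ≤ f := by exact_mod_cast Nat.le_of_dvd hfpos hlf'
    have hlpos : (6 : ℤ) ≤ (l : ℤ) := by exact_mod_cast h5
    have hg0 : (0 : ℤ) ≤ (l : ℤ) * (γ' : ℤ) := by positivity
    nlinarith
  have part2 : ∀ x : X, ¬ l ∣ Nat.card (stabilizer G x) := by
    intro x hx
    obtain ⟨s, hs⟩ := exists_prime_orderOf_dvd_card' l hx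
    refine part1 s ?_ x s.2
    rw [Subgroup.orderOf_coe, hs]
  refine ⟨part1, part2, ?_⟩
  intro hll
  obtain ⟨Q, hQ⟩ := Sylow.exists_subgroup_card_pow_prime l hll
  have hQp : IsPGroup l Q := IsPGroup.of_card hQ
  obtain ⟨γ, hγ⟩ := R.RH Q
  rw [Finset.sum_eq_zero] at hγ
  · rw [hQ] at hγ
    have e : 2 * (l : ℤ) = 2 * ((l + 1 : ℕ) : ℤ) - 2 := by push_cast; ring
    rw [← e, add_zero] at hγ
    push_cast at hγ
    have hlpos : (6 : ℤ) ≤ (l : ℤ) := by exact_mod_cast h5
    have h1 : (l : ℤ) * 2 = (l : ℤ) * ((l : ℤ) * (2 * (γ : ℤ) - 2)) := by linarith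
    have h2 := mul_left_cancel₀ (by linarith : (l : ℤ) ≠ 0) h1
    have h3 : (l : ℤ) ∣ 2 := ⟨_, h2⟩
    have h4 := Int.le_of_dvd (by norm_num) h3
    linarith
  · intro z _
    apply Finset.sum_eq_zero
    intro t ht
    simp only [Finset.mem_filter, Finset.mem_univ, true_and] at ht
    exfalso
    apply part2 z
    have h1 : orderOf t ∣ Nat.card (stabilizer G z) := by
      have : orderOf (⟨t, ht.2.2⟩ : stabilizer G z) = orderOf t := by
        rw [← Subgroup.orderOf_coe]
      rw [← this]
      exact orderOf_dvd_natCard _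
    refine dvd_trans ?_ h1
    obtain ⟨n, hn⟩ := (IsPGroup.iff_orderOf.1 hQp) ⟨t, ht.1⟩
    have h2 : orderOf t = l ^ n := by
      rw [← hn, ← Subgroup.orderOf_coe]
    rw [h2]
    apply dvd_pow_self
    rintro rfl
    rw [pow_zero] at h2
    exact ht.2.1 (orderOf_eq_one_iff.1 h2)

end Pool.Agent.helper75.AU
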