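import Pool.Agent.helper75.AU.SpecR

set_option linter.unusedVariables false

namespace Pool.Agent.helper75.AU

open scoped Classical
open Pool.Agent.helper53.AU MulAction

section

variable {k G X : Type} [Field k] [CharP k 3] [Group G] [Fintype G] [MulAction G X] [Fintype X]
  {l : ℕ}

/-- an element of 2-power order fixing `x` is not wild -/
theorem F3b_tame (R : Ram k G X (l + 1)) (x : X) (s : G) (hs : s • x = x) (h1 : s ≠ 1) (n : ℕ)
    (h2 : s ^ (2 ^ n) = 1) : R.i x s = 0 := by
  by_contra h
  obtain ⟨m, hm⟩ := R.wild x s hs h1 (Nat.one_le_iff_ne_zero.2 h)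
  apply h1
  have h3 : orderOf s ∣ 2 ^ n := orderOf_dvd_of_pow_eq_one h2
  have h4 : orderOf s ∣ 3 ^ m := orderOf_dvd_of_pow_eq_one hm
  have h5 : Nat.Coprime (2 ^ n) (3 ^ m) := Nat.Coprime.pow _ _ (by norm_num)
  have h6 : orderOf s = 1 := Nat.eq_one_of_dvd_coprimes h5 h3 h4
  exact orderOf_eq_one_iff.1 h6

/-- the number of fixed points of an involution is `2` mod `4` -/
theorem F3b_fix (R : Ram k G X (l + 1)) (hl : l % 2 = 1) (t : G) (ht : t * t = 1) (ht1 : t ≠ 1) :
    Nat.card {x : X // t • x = x} % 4 = 2 := by
  obtain ⟨γ, hγ⟩ := R.RH (Subgroup.zpowers t)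
  have ho : orderOf t = 2 := by
    apply orderOf_eq_prime
    · rw [pow_two, ht]
    · exact ht1
  have hmem : ∀ s : G, (s ∈ Subgroup.zpowers t ∧ s ≠ 1) ↔ s = t := by
    intro s
    constructor
    · rintro ⟨hs, hs1⟩
      obtain ⟨n, rfl⟩ := Subgroup.mem_zpowers_iff.1 hs
      rcases Int.even_or_odd' n with ⟨m, rfl | rfl⟩
      · exfalso; apply hs1
        rw [zpow_mul]
        have : t ^ (2 : ℤ) = 1 := by
          have h := pow_two t
          rw [ht] at h
          exact_mod_cast h
        rw [this, one_zpow]
      · rw [zpow_add, zpow_mul]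
        have : t ^ (2 : ℤ) = 1 := by
          have h := pow_two t
          rw [ht] at h
          exact_mod_cast h
        rw [this, one_zpow, one_mul, zpow_one]
    · rintro rfl
      exact ⟨Subgroup.mem_zpowers s, ht1⟩
  have hsum : ∀ x : X, (∑ s ∈ Finset.univ.filter
      (fun s : G => s ∈ Subgroup.zpowers t ∧ s ≠ 1 ∧ s • x = x), ((R.i x s : ℤ) + 1)) =
      if t • x = x then 1 else 0 := by
    intro x
    split_ifs with h
    · have : Finset.univ.filter
          (fun s : G => s ∈ Subgroup.zpowers t ∧ s ≠ 1 ∧ s • x = x) = {t} := by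
        ext s
        simp only [Finset.mem_filter, Finset.mem_univ, true_and, Finset.mem_singleton]
        constructor
        · rintro ⟨h1, h2, h3⟩
          exact (hmem s).1 ⟨h1, h2⟩
        · rintro rfl
          exact ⟨((hmem s).2 rfl).1, ht1, h⟩
      rw [this, Finset.sum_singleton, F3b_tame R x t h ht1 1 (by rw [pow_one, pow_two, ht])]
      simp
    · have : Finset.univ.filter
          (fun s : G => s ∈ Subgroup.zpowers t ∧ s ≠ 1 ∧ s • x = x) = ∅ := by
        ext s
        simp only [Finset.mem_filter, Finset.mem_univ, true_and, Finset.notMem_empty, iff_false]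
        rintro ⟨h1, h2, h3⟩
        rw [(hmem s).1 ⟨h1, h2⟩] at h3
        exact h h3
      rw [this, Finset.sum_empty]
  rw [Finset.sum_congr rfl (fun x _ => hsum x), Nat.card_zpowers, ho, Finset.sum_boole] at hγ
  have hc : Nat.card {x : X // t • x = x} = (Finset.univ.filter (fun x : X => t • x = x)).card := by
    rw [Nat.card_eq_fintype_card, Fintype.card_subtype]
  rw [hc]
  push_cast at hγ
  omega

/-- a 2-subgroup fixing a point is cyclic -/
theorem F3b_cyclic (R : Ram k G X (l + 1)) (x : X) (A : Subgroup G) (hA : IsPGroup 2 A)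
    (hx : ∀ s ∈ A, s • x = x) : IsCyclic A := by
  let f : A →* stabilizer G x := Subgroup.inclusion (fun s hs => hx s hs)
  let g : A →* k := (Units.coeHom k).comp ((R.θ x).comp f)
  have hg : Function.Injective g := by
    rw [injective_iff_map_eq_one]
    intro s hs
    have h1 : R.θ x (f s) = 1 := Units.ext hs
    rcases (R.tame x (f s)).1 h1 with h | h
    · exact Subtype.ext h
    · by_contra hne
      have hs1 : (s : G) ≠ 1 := fun h' => hne (Subtype.ext h')
      obtain ⟨n, hn⟩ := hA s
      have h2 := F3b_tame R x s (hx s s.2) hs1 n (by simpa using congrArg Subtype.val hn)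
      have h3 : ((f s : stabilizer G x) : G) = s := rfl
      rw [h3, h2] at h
      omega
  exact isCyclic_of_subgroup_isDomain g hg

end

/-- F3b -/
theorem F3b : F3b_stmt := by
  intro k G X _ _ _ _ _ _ l R hl
  refine ⟨?_, ?_⟩
  · intro Q hQ
    by_cases hbot : Q = ⊥
    · refine ⟨⊥, bot_le, inferInstance, ?_, Or.inl hbot⟩
      rw [hbot]
      simp
    · -- a central involution
      have hfact : Fact (Nat.Prime 2) := ⟨Nat.prime_two⟩
      have hnt : Nontrivial Q := (Subgroup.nontrivial_iff_ne_bot Q).2 hbot
      have hcn : Nontrivial (Subgroup.center Q) := hQ.center_nontrivial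
      have hcp : IsPGroup 2 (Subgroup.center Q) := hQ.to_subgroup _
      obtain ⟨n, hn⟩ := IsPGroup.iff_card.1 hcp
      have hn0 : n ≠ 0 := by
        rintro rfl
        rw [pow_zero] at hn
        have := Finite.one_lt_card (α := Subgroup.center Q)
        omega
      have h2 : 2 ∣ Nat.card (Subgroup.center Q) := by
        rw [hn]; exact dvd_pow_self 2 hn0
      obtain ⟨z, hz⟩ := exists_prime_orderOf_dvd_card' 2 h2
      set t : G := ((z : Q) : G) with ht
      have htz : orderOf t = 2 := by
        rw [ht, Subgroup.orderOf_coe, Subgroup.orderOf_coe, hz]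
      have ht2 : t * t = 1 := by
        have := pow_orderOf_eq_one t
        rwa [htz, pow_two] at this
      have ht1 : t ≠ 1 := by
        intro h
        rw [h, orderOf_one] at htz
        omega
      have hcomm : ∀ s ∈ Q, s * t = t * s := by
        intro s hs
        have := (Subgroup.mem_center_iff.1 z.2) ⟨s, hs⟩
        exact congrArg Subtype.val this
      -- Q acts on Fix t
      let Y : SubMulAction Q X :=
        { carrier := {x | t • x = x}
          smul_mem' := by
            intro s x hx
            have hx' : t • x = x := hx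
            change t • ((s : G) • x) = (s : G) • x
            rw [← mul_smul, ← hcomm s s.2, mul_smul, hx'] }
      have hY : Nat.card Y % 4 = 2 := F3b_fix R hl t ht2 ht1
      have hex : ∃ y : Y, Nat.card (orbit Q y) ≤ 2 := by
        by_contra hno
        push Not at hno
        have hdvd : ∀ ω : orbitRel.Quotient Q Y, 4 ∣ Nat.card ω.orbit := by
          intro ω
          induction ω using Quotient.inductionOn' with
          | h y =>
            rw [orbitRel.Quotient.orbit_mk]
            obtain ⟨m, hm⟩ := hQ.card_orbit y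
            have h3 := hno y
            rw [hm] at h3 ⊢
            have hm2 : 2 ≤ m := by
              by_contra hlt
              have : m = 0 ∨ m = 1 := by omega
              rcases this with rfl | rfl <;> norm_num at h3
            exact pow_dvd_pow 2 hm2
        have hsum : Nat.card Y = ∑ ω : orbitRel.Quotient Q Y, Nat.card ω.orbit := by
          rw [Nat.card_congr (MulAction.selfEquivSigmaOrbits' Q Y), Nat.card_sigma]
        have : 4 ∣ Nat.card Y := by
          rw [hsum]
          exact Finset.dvd_sum fun ω _ => hdvd ω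
        omega
      obtain ⟨y, hy⟩ := hex
      let A : Subgroup G := Q ⊓ stabilizer G (y : X)
      have hAQ : IsPGroup 2 A := hQ.to_le inf_le_left
      refine ⟨A, inf_le_left, F3b_cyclic R y A hAQ (fun s hs => hs.2), ?_, Or.inr ⟨y, fun s hs => hs.2⟩⟩
      have h4 : Nat.card (orbit Q y) * Nat.card (stabilizer Q y) = Nat.card Q := by
        rw [← Nat.card_prod]
        exact Nat.card_congr (orbitProdStabilizerEquivGroup Q y)
      have h5 : Nat.card (stabilizer Q y) = Nat.card A := by
        refine Nat.card_congr ⟨fun g => ⟨g.1.1, g.1.2, congrArg Subtype.val g.2⟩,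
          fun g => ⟨⟨g.1, g.2.1⟩, Subtype.ext g.2.2⟩, fun g => rfl, fun g => rfl⟩
      rw [← h4, h5]
      exact Nat.mul_le_mul_right _ hy
  · intro t ht ht1
    have h := F3b_fix R hl t ht ht1
    by_contra hno
    push Not at hno
    have : IsEmpty {x : X // t • x = x} := ⟨fun x => hno x x.2⟩
    rw [Nat.card_of_isEmpty] at h
    omega

end Pool.Agent.helper75.AU
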