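import Pool.Agent.helper75.AU.SpecR

set_option linter.unusedVariables false
set_option linter.unusedSectionVars false

namespace Pool.Agent.helper75.AU

open scoped Classical
open Pool.Agent.helper53.AU MulAction

/-- F4 -/
theorem F4 (hF2 : F2_stmt) : F4_stmt := by
  intro k G X _ _ _ _ _ _ l R r c Q hsp hr h5 hrl hc hQ hn
  have hfact : Fact r.Prime := ⟨hr⟩
  have hfact3 : Fact (Nat.Prime 3) := ⟨Nat.prime_three⟩
  have hQle : Nat.card Q ≤ l + 2 := (hF2 k G X l R Q hQ).2 hsp.mod3
  -- c normalises Q in both directions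
  have hQfin : Finite Q := inferInstance
  let Z : Subgroup G := Subgroup.zpowers c
  have hZ : IsPGroup r Z := by
    obtain ⟨n, hn⟩ := hc
    rintro ⟨s, hs⟩
    obtain ⟨m, rfl⟩ := Subgroup.mem_zpowers_iff.1 hs
    refine ⟨n, Subtype.ext ?_⟩
    change (c ^ m) ^ (r ^ n) = 1
    rw [← zpow_natCast, ← zpow_mul, mul_comm, zpow_mul, zpow_natCast, hn, one_zpow]
  have hpow : ∀ n : ℕ, ∀ s ∈ Q, c ^ n * s * (c ^ n)⁻¹ ∈ Q := by
    intro n
    induction n with
    | zero => intro s hs; simpa using hs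
    | succ n ih =>
      intro s hs
      have h1 := ih _ (hn s hs)
      have e : c ^ (n + 1) * s * (c ^ (n + 1))⁻¹ = c ^ n * (c * s * c⁻¹) * (c ^ n)⁻¹ := by
        rw [pow_succ]; group
      rw [e]; exact h1
  have hnormZ : ∀ z ∈ Z, ∀ s ∈ Q, z * s * z⁻¹ ∈ Q := by
    intro z hz s hs
    have hz' : z ∈ Submonoid.powers c := by
      rw [← mem_powers_iff_mem_zpowers] at hz
      exact hz
    obtain ⟨n, rfl⟩ := hz'
    exact hpow n s hs
  let _ : MulAction Z Q :=
    { smul := fun z s => ⟨z * s * (z : G)⁻¹, hnormZ z z.2 s s.2⟩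
      one_smul := fun s => Subtype.ext (by
        change (1 : G) * s * (1 : G)⁻¹ = s
        simp)
      mul_smul := fun a b s => Subtype.ext (by
        change ((a : G) * b) * s * ((a : G) * b)⁻¹ = a * (b * s * (b : G)⁻¹) * (a : G)⁻¹
        group) }
  have hmod := hZ.card_modEq_card_fixedPoints Q
  let C : Subgroup G := Q ⊓ Subgroup.centralizer {c}
  have hfixC : Nat.card (fixedPoints Z Q) = Nat.card C := by
    have hiff : ∀ s : Q, s ∈ fixedPoints Z Q ↔ c * s = s * c := by
      intro s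
      constructor
      · intro h
        have h1 := congrArg Subtype.val (h ⟨c, Subgroup.mem_zpowers c⟩)
        have h2 : c * (s : G) * c⁻¹ = s := h1
        exact mul_inv_eq_iff_eq_mul.1 h2
      · intro h z
        apply Subtype.ext
        change (z : G) * s * (z : G)⁻¹ = s
        obtain ⟨m, hm⟩ := Subgroup.mem_zpowers_iff.1 z.2
        have h1 : Commute c (s : G) := h
        have h2 : Commute (z : G) (s : G) := by
          rw [← hm]; exact h1.zpow_left m
        rw [h2.eq, mul_inv_cancel_right]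
    refine Nat.card_congr ⟨fun s => ⟨s.1.1, s.1.2, ?_⟩, fun s => ⟨⟨s.1, s.2.1⟩, ?_⟩, fun s => rfl,
      fun s => rfl⟩
    · exact Subgroup.mem_centralizer_singleton_iff.2 ((hiff s.1).1 s.2).symm
    · rw [hiff]
      exact (Subgroup.mem_centralizer_singleton_iff.1 s.2.2).symm
  rw [hfixC] at hmod
  have hCp : IsPGroup 3 C := hQ.to_le inf_le_left
  obtain ⟨a, ha⟩ := IsPGroup.iff_card.1 hQ
  obtain ⟨b, hb⟩ := IsPGroup.iff_card.1 hCp
  have hle : Nat.card C ≤ Nat.card Q := Subgroup.card_le_of_le inf_le_left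
  rw [ha, hb] at hmod hle
  have hba : b ≤ a := (Nat.pow_le_pow_iff_right (by norm_num)).1 hle
  have hab : a = b := by
    by_contra hne
    have hlt : b < a := lt_of_le_of_ne hba (Ne.symm hne)
    have hdvd : r ∣ 3 ^ a - 3 ^ b := (Nat.modEq_iff_dvd' hle).1 hmod.symm
    have e : 3 ^ a - 3 ^ b = 3 ^ b * (3 ^ (a - b) - 1) := by
      rw [Nat.mul_sub, mul_one, ← pow_add, Nat.add_sub_cancel' hba]
    rw [e] at hdvd
    have hcop : Nat.Coprime r (3 ^ b) :=
      Nat.Coprime.pow_right _ ((Nat.coprime_primes hr Nat.prime_three).2 (by omega))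
    have h1 : r ∣ 3 ^ (a - b) - 1 := hcop.dvd_of_dvd_mul_left hdvd
    have h2 : 3 ^ (a - b) ≤ l + 2 := by
      calc 3 ^ (a - b) ≤ 3 ^ a := Nat.pow_le_pow_right (by norm_num) (Nat.sub_le _ _)
        _ = Nat.card Q := ha.symm
        _ ≤ l + 2 := hQle
    have h3 := hsp.condR r (a - b) hr h5 (by omega) h2 h1
    rcases hrl with h | h
    · exact h3.1 h
    · exact h3.2 h
  have hCQ : C = Q := by
    apply Subgroup.eq_of_le_of_card_ge inf_le_left
    rw [ha, hb, hab]
  intro s hs
  rw [← hCQ] at hs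
  exact (Subgroup.mem_centralizer_singleton_iff.1 hs.2).symm

end Pool.Agent.helper75.AU
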