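import Pool.Agent.helper78.AU.RS3

namespace Pool.Agent.helper53.AU

open scoped Classical Pointwise

theorem RS_caseA (hAB : AB_stmt) (hP1 : P1_stmt) (hP5 : P5_stmt) (hOC : OC_stmt)
    {L Ω : Type} [Group L] [MulAction L Ω] {A : Subgroup L} (h : PL L Ω A) (hoc : oc L = ⊥)
    (E : Subgroup L) (hE : E.Normal) (hEb : E ≠ ⊥) (h2 : ∀ x ∈ E, x * x = 1)
    (h4 : Nat.card E ≤ 4) : Nat.card Ω = 4 := by
  have hfin := h.finL
  obtain ⟨e, heE, he1⟩ : ∃ e : L, e ∈ E ∧ e ≠ 1 := by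
    by_contra hcon
    push Not at hcon
    exact hEb ((Subgroup.eq_bot_iff_forall E).2 hcon)
  have hinv := RS3_inv hP1 h E hE e heE ⟨h2 _ heE, he1⟩
  obtain ⟨⟨τ, hτA, hτ⟩, -⟩ := hP1 L Ω A h
  obtain ⟨t, ht⟩ := h.dih
  obtain ⟨ht1, ht2⟩ := RS3_t hAB h ht
  obtain ⟨hAB1, hAB2, hABc, hABo, -, -, -, -, huniq, -⟩ := hAB L A h.cyc
  have hτ2 := RS3_tau hAB h hτA hτ
  have hτinv : τ⁻¹ = τ := inv_eq_of_mul_eq_one_left hτ.1
  have htτ : t * τ = τ * t := by
    have h5 := (ht2 τ hτ2).1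
    rw [hτinv] at h5
    exact mul_inv_eq_iff_eq_mul.1 h5
  have hτtinv := (ht2 τ hτ2).2
  have htτne : t ≠ τ := by
    rintro rfl
    exact ht.2.1 hτA
  have hlist : ∀ x ∈ E, x = 1 ∨ x = τ ∨ x = t ∨ x = τ * t := by
    intro x hx
    by_contra hcon
    push Not at hcon
    obtain ⟨hx1, hx2, hx3, hx4⟩ := hcon
    have h6 : (({1, τ, t, τ * t, x} : Finset L) : Set L) ⊆ (E : Set L) := by
      intro y hy
      simp only [Finset.coe_insert, Finset.coe_singleton, Set.mem_insert_iff,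
        Set.mem_singleton_iff] at hy
      rcases hy with rfl | rfl | rfl | rfl | rfl
      · exact E.one_mem
      · exact hinv _ hτ
      · exact hinv _ ht1
      · exact hinv _ hτtinv
      · exact hx
    have h7 : ({1, τ, t, τ * t, x} : Finset L).card = 5 := by
      rw [Finset.card_insert_of_notMem, Finset.card_insert_of_notMem,
        Finset.card_insert_of_notMem, Finset.card_insert_of_notMem, Finset.card_singleton]
      · simp only [Finset.mem_singleton]
        exact fun h => hx4 h.symm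
      · simp only [Finset.mem_insert, Finset.mem_singleton, not_or]
        exact ⟨fun h => hτ.2 (mul_eq_right.1 h.symm), fun h => hx3 h.symm⟩
      · simp only [Finset.mem_insert, Finset.mem_singleton, not_or]
        exact ⟨fun h => htτne h.symm, fun h => ht1.2 (mul_eq_left.1 h.symm),
          fun h => hx2 h.symm⟩
      · simp only [Finset.mem_insert, Finset.mem_singleton, not_or]
        exact ⟨fun h => hτ.2 h.symm, fun h => ht1.2 h.symm, fun h => hτtinv.2 h.symm,
          fun h => hx1 h.symm⟩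
    have h8 := Set.ncard_le_ncard h6 (Set.toFinite _)
    rw [Set.ncard_coe_finset, h7] at h8
    have h9 : (E : Set L).ncard = Nat.card E := rfl
    omega
  -- the odd part is normal
  have hcommA : ∀ a ∈ A, ∀ b ∈ A, a * b = b * a := by
    intro a ha b hb
    obtain ⟨c, hc⟩ := h.cyc.exists_generator
    obtain ⟨i, hi⟩ := Subgroup.mem_zpowers_iff.1 (hc (⟨a, ha⟩ : A))
    obtain ⟨j, hj⟩ := Subgroup.mem_zpowers_iff.1 (hc (⟨b, hb⟩ : A))
    have h8 : (⟨a, ha⟩ : A) * ⟨b, hb⟩ = (⟨b, hb⟩ : A) * ⟨a, ha⟩ := by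
      rw [← hi, ← hj, ← zpow_add, ← zpow_add, add_comm]
    exact congrArg Subtype.val h8
  have hodd : ∀ a ∈ oddPart A, ∀ x ∈ E, a * x = x * a := by
    intro a ha
    obtain ⟨haA, hao⟩ := (hAB1 a).1 ha
    have haτ : a * τ = τ * a := hcommA a haA τ hτA
    have hat : a * t = t * a := by
      have h5 : (a ^ 2) * t = t * (a ^ 2) := by
        rcases hlist (a * t * a⁻¹) (hE.conj_mem t (hinv _ ht1) a) with h6 | h6 | h6 | h6
        · exfalso
          apply ht1.2
          rw [mul_inv_eq_one, mul_eq_left] at h6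
          exact h6
        · exfalso
          apply htτne
          have h7 : a * t * a⁻¹ = a * τ * a⁻¹ := by rw [h6, haτ, mul_inv_cancel_right]
          exact mul_left_cancel (mul_right_cancel h7)
        · rw [mul_inv_eq_iff_eq_mul] at h6
          rw [pow_two, mul_assoc, h6, ← mul_assoc, h6, mul_assoc]
        · rw [mul_inv_eq_iff_eq_mul] at h6
          calc a ^ 2 * t = a * (a * t) := by rw [pow_two, mul_assoc]
            _ = a * τ * t * a := by rw [h6]; group
            _ = τ * (a * t) * a := by rw [haτ]; group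
            _ = (τ * τ) * t * a * a := by rw [h6]; group
            _ = t * a ^ 2 := by rw [hτ.1, pow_two]; group
      obtain ⟨k, hk⟩ := hao
      have h6 : (a ^ 2) ^ (k + 1) = a := by
        rw [← pow_mul, show 2 * (k + 1) = (2 * k + 1) + 1 by ring, pow_succ, ← hk,
          pow_orderOf_eq_one, one_mul]
      have h7 : Commute ((a ^ 2) ^ (k + 1)) t := Commute.pow_left h5 (k + 1)
      rw [h6] at h7
      exact h7
    intro x hx
    rcases hlist x hx with rfl | rfl | rfl | rfl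
    · simp
    · exact haτ
    · exact hat
    · rw [← mul_assoc, haτ, mul_assoc, hat, mul_assoc]
  have hpow : ∀ a ∈ oddPart A, a ^ (Nat.card (oddPart A)) = 1 := by
    intro a ha
    have h7 : (⟨a, ha⟩ : oddPart A) ^ (Nat.card (oddPart A)) = 1 := pow_card_eq_one'
    exact congrArg Subtype.val h7
  have hnorm : (oddPart A).Normal := by
    constructor
    intro a ha g
    apply (hP5 L Ω A h τ hτA hτ).2.2
    · have h5 := hodd a ha (g⁻¹ * τ * g) (by
        have := hE.conj_mem τ (hinv _ hτ) g⁻¹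
        rwa [inv_inv] at this)
      calc g * a * g⁻¹ * τ = g * (a * (g⁻¹ * τ * g)) * g⁻¹ := by group
        _ = g * (g⁻¹ * τ * g * a) * g⁻¹ := by rw [h5]
        _ = τ * (g * a * g⁻¹) := by group
    · rw [conj_pow, hpow a ha, mul_one, mul_inv_cancel]
  have hle := (hOC L).2.2.1 (oddPart A) hnorm hABo
  rw [hoc, le_bot_iff] at hle
  have hone : Nat.card (oddPart A) = 1 := by rw [hle]; exact Subgroup.card_bot
  -- the 2-part has order at most 2
  have h2le : Nat.card (twoPart A) ≤ 2 := by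
    have h5 : ((twoPart A : Subgroup L) : Set L) ⊆ {1, τ} := by
      intro a ha
      have haE := RS3_two hAB h E hinv ha
      by_cases ha1 : a = 1
      · exact Or.inl ha1
      · right
        exact huniq a τ ((hAB2 a).1 ha).1 hτA ⟨h2 a haE, ha1⟩ hτ
    have h6 := Set.ncard_le_ncard h5 (Set.toFinite _)
    have h7 : ((twoPart A : Subgroup L) : Set L).ncard = Nat.card (twoPart A) := rfl
    have h8 : ({1, τ} : Set L).ncard ≤ 2 := by
      have := Set.ncard_insert_le (1 : L) {τ}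
      rw [Set.ncard_singleton] at this
      exact this
    omega
  have hcA := h.cardA
  rw [hone, one_mul] at hABc
  have hΩpos := RS1_pos h
  have h4Ω := h.four
  obtain ⟨q, hq⟩ := h4Ω
  omega

theorem RS_norm {Γ : Type} [Group Γ] [Finite Γ] (L : Subgroup Γ) [L.Normal] (E : Subgroup L)
    (hE : E.Normal) (hmin : ∀ N : Subgroup L, N.Normal → N ≤ E → N = ⊥ ∨ N = E)
    (hinv : ∀ s : L, IsInv s → s ∈ E) (τ : L) (hτ : IsInv τ) (γ : Γ) (x : L) (hx : x ∈ E) :
    MulAut.conjNormal γ x ∈ E := by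
  set E' : Subgroup L := E.map (MulAut.conjNormal γ : MulAut L).toMonoidHom with hE'
  have h1 : E'.Normal := Subgroup.Normal.map hE _ (MulAut.conjNormal γ : MulAut L).surjective
  have h2 : Nat.card E' = Nat.card E :=
    Nat.card_congr (E.equivMapOfInjective _ (MulAut.conjNormal γ : MulAut L).injective).symm.toEquiv
  have hσ : IsInv (MulAut.conjNormal γ τ) := by
    refine ⟨?_, ?_⟩
    · rw [← map_mul, hτ.1, map_one]
    · intro h3
      exact hτ.2 ((map_eq_one_iff _ (MulAut.conjNormal γ : MulAut L).injective).1 h3)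
  have hN : (E ⊓ E').Normal := inferInstance
  rcases hmin (E ⊓ E') hN inf_le_left with h3 | h3
  · exfalso
    have h4 : MulAut.conjNormal γ τ ∈ E ⊓ E' := ⟨hinv _ hσ, ⟨τ, hinv _ hτ, rfl⟩⟩
    rw [h3, Subgroup.mem_bot] at h4
    exact hσ.2 h4
  · have h4 : E ≤ E' := by rw [← h3]; exact inf_le_right
    have h5 : E = E' := Subgroup.eq_of_le_of_card_ge h4 (le_of_eq h2)
    rw [h5]
    exact ⟨x, hx, rfl⟩

theorem RS_caseB (hTT : TT_stmt) (hAB : AB_stmt) (hP1 : P1_stmt) (hP5 : P5_stmt)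
    (hCM : CM_stmt) {Γ Ω : Type} [Group Γ] [MulAction Γ Ω] [Finite Γ] (L : Subgroup Γ)
    (A : Subgroup L) [L.Normal] (hcomm : ⁅(⊤ : Subgroup Γ), L⁆ = L) (h3 : GenThree L)
    (h : PL L Ω A) (E : Subgroup L) (hE : E.Normal)
    (hmin : ∀ N : Subgroup L, N.Normal → N ≤ E → N = ⊥ ∨ N = E) (hEs : NASimple E)
    (hev : Even (Nat.card E)) : E = ⊤ := by
  have hfin := h.finL
  obtain ⟨e0, he0⟩ := exists_prime_orderOf_dvd_card' (G := E) 2 (even_iff_two_dvd.1 hev)
  have he1 : IsInv (e0 : L) := by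
    refine ⟨?_, ?_⟩
    · have h1 : e0 ^ 2 = 1 := by rw [← he0]; exact pow_orderOf_eq_one e0
      rw [pow_two] at h1
      exact congrArg Subtype.val h1
    · intro h1
      have h2 : e0 = 1 := Subtype.ext h1
      rw [h2, orderOf_one] at he0
      omega
  have hinv := RS3_inv hP1 h E hE e0 e0.2 he1
  obtain ⟨⟨τ, hτA, hτ⟩, -⟩ := hP1 L Ω A h
  have hconj := RS3_conj hTT hAB h E hEs hinv hτA hτ
  have hΓE := RS_norm L E hE hmin hinv τ hτ
  obtain ⟨hidx, -⟩ := RS3_index hAB h E hinv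
  obtain ⟨hAB1, hAB2, hABc, hABo, -, hocyc, -, -, huniq, -⟩ := hAB L A h.cyc
  obtain ⟨hP5a, hP5b, hP5c⟩ := hP5 L Ω A h τ hτA hτ
  -- decomposition
  have hdec : ∀ γ : Γ, ∃ g ∈ E, ((g : Γ)⁻¹ * γ) * (τ : Γ) = (τ : Γ) * ((g : Γ)⁻¹ * γ) := by
    intro γ
    have hσ : IsInv (MulAut.conjNormal γ τ) := by
      refine ⟨?_, ?_⟩
      · rw [← map_mul, hτ.1, map_one]
      · intro h3
        exact hτ.2 ((map_eq_one_iff _ (MulAut.conjNormal γ : MulAut L).injective).1 h3)
    obtain ⟨g, hg, hgσ⟩ := hconj _ hσ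
    refine ⟨g, hg, ?_⟩
    have h5 : (g : Γ) * τ * (g : Γ)⁻¹ = γ * τ * γ⁻¹ := by
      have := congrArg Subtype.val hgσ
      simpa [MulAut.conjNormal_apply] using this
    calc ((g : Γ)⁻¹ * γ) * (τ : Γ) = (g : Γ)⁻¹ * (γ * τ * γ⁻¹) * γ := by group
      _ = (g : Γ)⁻¹ * ((g : Γ) * τ * (g : Γ)⁻¹) * γ := by rw [h5]
      _ = (τ : Γ) * ((g : Γ)⁻¹ * γ) := by group
  have hpow : ∀ a ∈ oddPart A, a ^ (Nat.card (oddPart A)) = 1 := by
    intro a ha
    have h7 : (⟨a, ha⟩ : oddPart A) ^ (Nat.card (oddPart A)) = 1 := pow_card_eq_one'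
    exact congrArg Subtype.val h7
  have hoddA : oddPart A ≤ A := by
    intro a ha
    exact ((hAB1 a).1 ha).1
  have hcommA : ∀ a ∈ A, ∀ b ∈ A, a * b = b * a := by
    intro a ha b hb
    obtain ⟨c, hc⟩ := h.cyc.exists_generator
    obtain ⟨i, hi⟩ := Subgroup.mem_zpowers_iff.1 (hc (⟨a, ha⟩ : A))
    obtain ⟨j, hj⟩ := Subgroup.mem_zpowers_iff.1 (hc (⟨b, hb⟩ : A))
    have h8 : (⟨a, ha⟩ : A) * ⟨b, hb⟩ = (⟨b, hb⟩ : A) * ⟨a, ha⟩ := by
      rw [← hi, ← hj, ← zpow_add, ← zpow_add, add_comm]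
    exact congrArg Subtype.val h8
  -- the centraliser of `τ` normalises the odd part
  have hnorm : ∀ γ : Γ, γ * (τ : Γ) = (τ : Γ) * γ → ∀ a ∈ oddPart A,
      MulAut.conjNormal γ a ∈ oddPart A := by
    intro γ hγ a ha
    have hγτ : MulAut.conjNormal γ τ = τ := by
      apply Subtype.ext
      rw [MulAut.conjNormal_apply, hγ, mul_inv_cancel_right]
    apply hP5c
    · have h5 := congrArg (MulAut.conjNormal γ : MulAut L) (hcommA a (hoddA ha) τ hτA)
      rw [map_mul, map_mul, hγτ] at h5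
      exact h5
    · rw [← map_pow, hpow a ha, map_one]
  -- the subgroup `F`
  set EΓ : Subgroup Γ := E.map L.subtype with hEΓ
  set OΓ : Subgroup Γ := (oddPart A).map L.subtype with hOΓ
  have hOcyc : IsCyclic OΓ :=
    isCyclic_of_surjective ((oddPart A).equivMapOfInjective L.subtype L.subtype_injective)
      ((oddPart A).equivMapOfInjective L.subtype L.subtype_injective).surjective
  have hEn : EΓ.Normal := by
    constructor
    rintro _ ⟨x, hx, rfl⟩ γ
    exact ⟨MulAut.conjNormal γ x, hΓE γ x hx, by simp [MulAut.conjNormal_apply]⟩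
  have hOn : ∀ γ : Γ, γ * (τ : Γ) = (τ : Γ) * γ → ∀ a ∈ OΓ, γ * a * γ⁻¹ ∈ OΓ := by
    rintro γ hγ _ ⟨x, hx, rfl⟩
    exact ⟨MulAut.conjNormal γ x, hnorm γ hγ x hx, by simp [MulAut.conjNormal_apply]⟩
  set F : Subgroup Γ := EΓ ⊔ OΓ with hF
  have hEF : EΓ ≤ F := le_sup_left
  have hOF : OΓ ≤ F := le_sup_right
  have hFn : F.Normal := by
    constructor
    intro f hf γ
    have h5 : F ≤ F.comap (MulAut.conj γ).toMonoidHom := by
      rw [hF, sup_le_iff]
      constructor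
      · intro x hx
        rw [Subgroup.mem_comap]
        exact hEF (hEn.conj_mem x hx γ)
      · intro a ha
        rw [Subgroup.mem_comap]
        obtain ⟨g, hg, hgγ⟩ := hdec γ
        have h6 := hOn _ hgγ a ha
        have h7 : γ * a * γ⁻¹ = (g : Γ) * (((g : Γ)⁻¹ * γ) * a * ((g : Γ)⁻¹ * γ)⁻¹) *
            (g : Γ)⁻¹ := by group
        have hgF : (g : Γ) ∈ F := hEF ⟨g, hg, rfl⟩
        show γ * a * γ⁻¹ ∈ F
        rw [h7]
        exact F.mul_mem (F.mul_mem hgF (hOF h6)) (F.inv_mem hgF)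
    exact h5 hf
  -- `L ≤ F`
  have hLF : L ≤ F := by
    rw [← hcomm, Subgroup.commutator_le]
    intro γ _ l hl
    obtain ⟨g, hg, hgγ⟩ := hdec γ
    obtain ⟨g2, hg2, hgl⟩ := hdec l
    set γ' : Γ := (g : Γ)⁻¹ * γ with hγ'
    set l' : Γ := (g2 : Γ)⁻¹ * l with hl'
    have hl'L : l' ∈ L := L.mul_mem (L.inv_mem g2.2) hl
    have hcL : γ' * l' * γ'⁻¹ * l'⁻¹ ∈ L :=
      L.mul_mem (Subgroup.Normal.conj_mem inferInstance l' hl'L γ') (L.inv_mem hl'L)
    -- the commutator lies in F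
    have hcF : γ' * l' * γ'⁻¹ * l'⁻¹ ∈ F := by
      set c : L := ⟨γ' * l' * γ'⁻¹ * l'⁻¹, hcL⟩ with hc
      have hcτ : c * τ = τ * c := by
        apply Subtype.ext
        have e1 : Commute γ' (τ : Γ) := hgγ
        have e2 : Commute l' (τ : Γ) := hgl
        exact (((e1.mul_left e2).mul_left e1.inv_left).mul_left e2.inv_left)
      have hcO : ∀ a ∈ oddPart A, c * a = a * c := by
        intro a ha
        apply Subtype.ext
        exact hCM Γ OΓ hOcyc γ' l' (hOn γ' hgγ) (hOn l' hgl) a ⟨a, ha, rfl⟩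
      obtain ⟨k, m, hm, hkm⟩ := Nat.exists_eq_two_pow_mul_odd (orderOf_pos c).ne'
      have h8 : c ^ (2 ^ k) ∈ oddPart A := by
        apply hP5b
        · exact (show Commute (c ^ (2 ^ k)) τ from Commute.pow_left hcτ _)
        · have h9 : orderOf (c ^ (2 ^ k)) = m := by
            rw [orderOf_pow, hkm, Nat.gcd_eq_right (dvd_mul_right _ _),
              Nat.mul_div_cancel_left _ (by positivity)]
          rw [h9]; exact hm
        · intro a ha
          exact (show Commute (c ^ (2 ^ k)) a from Commute.pow_left (hcO a ha) _)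
      have h9 : c ^ m ∈ E := by
        refine RS3_mem E (2 ^ k) E.index (Nat.Coprime.pow_left k (Nat.coprime_two_left.2 hidx))
          _ ?_ (E.pow_index_mem _)
        rw [← pow_mul, mul_comm, ← hkm, pow_orderOf_eq_one]
        exact E.one_mem
      refine RS3_mem F (2 ^ k) m (Nat.Coprime.pow_left k (Nat.coprime_two_left.2 hm))
          (c : Γ) ?_ ?_
      · exact hOF ⟨c ^ (2 ^ k), h8, rfl⟩
      · exact hEF ⟨c ^ m, h9, rfl⟩
    have hgF : (g : Γ) ∈ F := hEF ⟨g, hg, rfl⟩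
    have hg2F : (g2 : Γ) ∈ F := hEF ⟨g2, hg2, rfl⟩
    have q1 : ((γ : Γ) : Γ ⧸ F) = ((γ' : Γ) : Γ ⧸ F) := by
      have : γ = (g : Γ) * γ' := by rw [hγ', mul_inv_cancel_left]
      rw [this, QuotientGroup.mk_mul, (QuotientGroup.eq_one_iff _).2 hgF, one_mul]
    have q2 : ((l : Γ) : Γ ⧸ F) = ((l' : Γ) : Γ ⧸ F) := by
      have : l = (g2 : Γ) * l' := by rw [hl', mul_inv_cancel_left]
      rw [this, QuotientGroup.mk_mul, (QuotientGroup.eq_one_iff _).2 hg2F, one_mul]
    have q3 := (QuotientGroup.eq_one_iff _).2 hcF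
    apply (QuotientGroup.eq_one_iff _).1
    rw [commutatorElement_def]
    simp only [QuotientGroup.mk_mul, QuotientGroup.mk_inv] at q3 ⊢
    rw [q1, q2]
    exact q3
  -- the 3-elements lie in `E`
  have hodd3 : Nat.Coprime 3 (Nat.card (oddPart A)) := by
    rw [Nat.Prime.coprime_iff_not_dvd Nat.prime_three]
    intro h5
    apply h.three
    rw [← h.cardA]
    exact Dvd.dvd.mul_left (h5.trans (Subgroup.card_dvd_of_le hoddA)) 2
  rw [eq_top_iff, ← (show Subgroup.closure {x : L | ∃ n : ℕ, x ^ (3 ^ n) = 1} = ⊤ from h3),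
    Subgroup.closure_le]
  rintro x ⟨n, hn⟩
  refine RS3_mem E (3 ^ n) (Nat.card (oddPart A)) (Nat.Coprime.pow_left n hodd3) x
    (by rw [hn]; exact E.one_mem) ?_
  have hxF : (x : Γ) ∈ F := hLF x.2
  rw [hF, Subgroup.mem_sup_of_normal_left] at hxF
  obtain ⟨e, he, a, ha, hea⟩ := hxF
  obtain ⟨a0, ha0, rfl⟩ := ha
  have h5 : (x : Γ) ^ (Nat.card (oddPart A)) ∈ EΓ := by
    apply (QuotientGroup.eq_one_iff _).1
    rw [QuotientGroup.mk_pow, ← hea, QuotientGroup.mk_mul, (QuotientGroup.eq_one_iff _).2 he,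
      one_mul, ← QuotientGroup.mk_pow]
    have h6 : (L.subtype a0) ^ (Nat.card (oddPart A)) = 1 := by
      rw [← map_pow, hpow a0 ha0, map_one]
    rw [h6, QuotientGroup.mk_one]
  obtain ⟨y, hy, hyx⟩ := h5
  have h6 : y = x ^ (Nat.card (oddPart A)) := Subtype.ext hyx
  rw [← h6]
  exact hy

theorem RS (hTT : TT_stmt) (hTZ : TZ_stmt) (hOC : OC_stmt) (hMN : MN_stmt) (hLO : LO_stmt)
    (hAB : AB_stmt) (hCM : CM_stmt) (hNH : NH_stmt) (hP1 : P1_stmt) (hP5 : P5_stmt)
    (hSY : SY_stmt) : RS_stmt := by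
  intro Γ Ω _ _ _ _ _ L A hL hcomm h3 h
  have hfin := h.finL
  have hoc := RS2_oc hSY hTZ hOC hNH hCM hLO L A hcomm h3 h
  obtain ⟨⟨τ, hτA, hτ⟩, -⟩ := hP1 L Ω A h
  obtain ⟨E, hE, hEb, hmin⟩ := RS3_min τ hτ.2
  have hev : Even (Nat.card E) := by
    rcases Nat.even_or_odd (Nat.card E) with h1 | h1
    · exact h1
    · exfalso
      have h2 := (hOC L).2.2.1 E hE h1
      rw [hoc, le_bot_iff] at h2
      exact hEb h2
  obtain ⟨S, hS, hSc⟩ := RS3_sylow hAB h
  obtain ⟨-, -, -, -, -, -, h2cyc, -⟩ := hAB L A h.cyc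
  rcases hMN L S (twoPart A) E hS h2cyc hSc hE hEb hmin hev with ⟨h1, h2⟩ | hEs
  · exact Or.inl (RS_caseA hAB hP1 hP5 hOC h hoc E hE hEb h1 h2)
  · right
    have hEt := RS_caseB hTT hAB hP1 hP5 hCM L A hcomm h3 h E hE hmin hEs hev
    subst hEt
    obtain ⟨hs, a, b, hab⟩ := hEs
    exact {
      finL := h.finL
      finΩ := h.finΩ
      faithful := h.faithful
      trans := h.trans
      simple := (Subgroup.topEquiv (G := L)).symm.isSimpleGroup
      nonab := ⟨a, b, fun h4 => hab (Subtype.ext h4)⟩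
      four := h.four
      three := h.three
      copr := h.copr
      stab := h.stab
      cyc := h.cyc
      cardA := h.cardA
      semireg := h.semireg
      dih := h.dih }

end Pool.Agent.helper53.AU
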