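import Pool.Agent.helper75.AU.SpecR

set_option linter.unusedVariables false
set_option linter.unusedSectionVars false

namespace Pool.Agent.helper75.AU

open scoped Classical
open Pool.Agent.helper53.AU MulAction

theorem S61_thr_normal (G : Type) [Group G] : (thr G).Normal := by
  refine ⟨fun n hn g => ?_⟩
  unfold thr at hn ⊢
  refine Subgroup.closure_induction (p := fun n _ => g * n * g⁻¹ ∈
    Subgroup.closure {x : G | ∃ n : ℕ, x ^ (3 ^ n) = 1}) ?_ ?_ ?_ ?_ hn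
  · rintro x ⟨m, hm⟩
    apply Subgroup.subset_closure
    refine ⟨m, ?_⟩
    rw [conj_pow, hm, mul_one, mul_inv_cancel]
  · rw [mul_one, mul_inv_cancel]; exact Subgroup.one_mem _
  · intro x y _ _ hx hy
    have e : g * (x * y) * g⁻¹ = (g * x * g⁻¹) * (g * y * g⁻¹) := by group
    rw [e]; exact Subgroup.mul_mem _ hx hy
  · intro x _ hx
    have e : g * x⁻¹ * g⁻¹ = (g * x * g⁻¹)⁻¹ := by group
    rw [e]; exact Subgroup.inv_mem _ hx

theorem S61_index {G : Type} [Group G] [Fintype G] (B N : Subgroup G) (hN : N.Normal) :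
    ∃ b : ℕ, 0 < b ∧ Nat.card B = b * Nat.card (B ⊓ N : Subgroup G) ∧ b ∣ N.index ∧
      (b = N.index → ∀ a : G, ∃ x ∈ B, ∃ t ∈ N, a = x * t) := by
  refine ⟨N.relIndex B, ?_, ?_, Subgroup.relIndex_dvd_index_of_normal N B, ?_⟩
  · exact Nat.pos_of_ne_zero Subgroup.index_ne_zero_of_finite
  · have h1 := (N.subgroupOf B).card_mul_index
    have h2 : Nat.card (N.subgroupOf B) = Nat.card (B ⊓ N : Subgroup G) := by
      refine Nat.card_congr ⟨fun g => ⟨g.1.1, g.1.2, g.2⟩, fun g => ⟨⟨g.1, g.2.1⟩, g.2.2⟩,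
        fun g => rfl, fun g => rfl⟩
    rw [← h1, h2, mul_comm]
    rfl
  · intro h a
    have h1 : N.relIndex (B ⊔ N) = N.relIndex B := Subgroup.relIndex_sup_right B N
    have h2 : N.relIndex (B ⊔ N) * (B ⊔ N).index = N.index :=
      Subgroup.relIndex_mul_index le_sup_right
    rw [h1, h] at h2
    have h3 : N.index ≠ 0 := Subgroup.index_ne_zero_of_finite
    have h4 : (B ⊔ N).index = 1 := by
      have : N.index * (B ⊔ N).index = N.index * 1 := by rw [h2, mul_one]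
      exact Nat.eq_of_mul_eq_mul_left (Nat.pos_of_ne_zero h3) this
    have h5 : B ⊔ N = ⊤ := Subgroup.index_eq_one.1 h4
    have h6 : a ∈ ((B ⊔ N : Subgroup G) : Set G) := by rw [h5]; trivial
    rw [Subgroup.mul_normal] at h6
    obtain ⟨x, hx, t, ht, hxt⟩ := h6
    exact ⟨x, hx, t, ht, hxt.symm⟩

/-- S61 -/
theorem S61 (hBA1 : BA1_stmt) (hBA3 : BA3_stmt) (hBA4 : BA4_stmt) : S61_stmt := by
  intro k G X _ _ _ _ _ _ l R x y hsp h2
  have hN : (thr G).Normal := S61_thr_normal G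
  have hP : ∀ z : X, R.P z ≤ thr G := by
    intro z s hs
    obtain ⟨n, hn⟩ := (hBA1 k G X (l + 1) R z).1 ⟨s, hs⟩
    exact Subgroup.subset_closure ⟨n, by simpa using congrArg Subtype.val hn⟩
  obtain ⟨b1, hb1, hB1, hd1, hG1⟩ := S61_index (stabilizer G x) (thr G) hN
  obtain ⟨b2, hb2, hB2, hd2, hG2⟩ := S61_index (stabilizer G y) (thr G) hN
  obtain ⟨γ, hγ⟩ := R.RH (thr G)
  obtain ⟨horb, _, hsum2, _⟩ := hBA4 G X
  have hdsum : (∑ z : X, ∑ s ∈ Finset.univ.filter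
      (fun s : G => s ∈ thr G ∧ s ≠ 1 ∧ s • z = z), ((R.i z s : ℤ) + 1)) =
      ∑ z : X, (R.d (thr G) z : ℤ) := by
    refine Finset.sum_congr rfl fun z _ => ?_
    unfold Ram.d
    push_cast
    rfl
  rw [hdsum] at hγ
  have hinv : ∀ (a : G) (z : X), ((R.d (thr G) (a • z) : ℤ)) = (R.d (thr G) z : ℤ) := by
    intro a z
    have h := ((hBA3 k G X (l + 1) R z (thr G)).2.2.2.2.2.2.2.1 a (fun s => ?_)).1
    · rw [h]
    · constructor
      · intro hs
        have := hN.conj_mem _ hs a⁻¹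
        have e : a⁻¹ * (a * s * a⁻¹) * a⁻¹⁻¹ = s := by group
        rwa [e] at this
      · intro hs
        exact hN.conj_mem _ hs a
  have hzero : ∀ z : X, z ∉ orbit G x → z ∉ orbit G y → (R.d (thr G) z : ℤ) = 0 := by
    intro z hzx hzy
    have hst : stabilizer G z = ⊥ := by
      by_contra hne
      rcases h2.cov z hne with h | h
      · exact hzx h
      · exact hzy h
    have h := (hBA3 k G X (l + 1) R z (thr G)).2.2.2.2.2.2.1 (by rw [hst, inf_bot_eq])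
    rw [h]; rfl
  rw [hsum2 (fun z => (R.d (thr G) z : ℤ)) x y hinv h2.ne hzero] at hγ
  have hdx := (hBA3 k G X (l + 1) R x (thr G)).2.2.1
  have hdy := (hBA3 k G X (l + 1) R y (thr G)).2.2.1
  rw [(hBA3 k G X (l + 1) R x (thr G)).2.2.2.1 (hP x)] at hdx
  rw [(hBA3 k G X (l + 1) R y (thr G)).2.2.2.1 (hP y)] at hdy
  have hox := horb x
  have hoy := horb y
  have hrh := h2.rh
  rw [inf_comm] at hdx hdy
  have hcard := (thr G).card_mul_index
  -- numbers
  set n1 := (thr G).index with hn1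
  have hn1pos : 0 < n1 := Nat.pos_of_ne_zero Subgroup.index_ne_zero_of_finite
  set g1 := Nat.card (thr G) with hg1
  have hg1pos : 0 < g1 := Nat.card_pos
  set B1 := Nat.card (stabilizer G x ⊓ thr G : Subgroup G) with hB1def
  set B2 := Nat.card (stabilizer G y ⊓ thr G : Subgroup G) with hB2def
  obtain ⟨m1, hm1⟩ := hd1
  obtain ⟨m2, hm2⟩ := hd2
  -- |O| |G_1 ∩ G_x| = |G_1| m1
  have e1 : oo G x * B1 = g1 * m1 := by
    have : (oo G x * B1) * b1 = (g1 * m1) * b1 := by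
      calc (oo G x * B1) * b1 = oo G x * (b1 * B1) := by ring
        _ = oo G x * Nat.card (stabilizer G x) := by rw [hB1]
        _ = Nat.card G := hox
        _ = g1 * n1 := hcard.symm
        _ = (g1 * m1) * b1 := by rw [hm1]; ring
    exact Nat.eq_of_mul_eq_mul_right hb1 this
  have e2 : oo G y * B2 = g1 * m2 := by
    have : (oo G y * B2) * b2 = (g1 * m2) * b2 := by
      calc (oo G y * B2) * b2 = oo G y * (b2 * B2) := by ring
        _ = oo G y * Nat.card (stabilizer G y) := by rw [hB2]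
        _ = Nat.card G := hoy
        _ = g1 * n1 := hcard.symm
        _ = (g1 * m2) * b2 := by rw [hm2]; ring
    exact Nat.eq_of_mul_eq_mul_right hb2 this
  have hm1pos : 0 < m1 := Nat.pos_of_ne_zero (by rintro rfl; rw [mul_zero] at hm1; omega)
  have hm2pos : 0 < m2 := Nat.pos_of_ne_zero (by rintro rfl; rw [mul_zero] at hm2; omega)
  -- the main identity
  have key : (g1 : ℤ) * (2 - 2 * (γ : ℤ)) = (g1 : ℤ) * ((m1 : ℤ) + (m2 : ℤ)) := by
    have hdx' : ((R.d (thr G) x : ℕ) : ℤ) = (B1 : ℤ) + (R.T x : ℤ) - 1 := by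
      have : ((R.d (thr G) x : ℕ) : ℤ) + 1 = (B1 : ℤ) + (R.T x : ℤ) := by exact_mod_cast hdx
      linarith
    have hdy' : ((R.d (thr G) y : ℕ) : ℤ) = (B2 : ℤ) + (R.T y : ℤ) - 1 := by
      have : ((R.d (thr G) y : ℕ) : ℤ) + 1 = (B2 : ℤ) + (R.T y : ℤ) := by exact_mod_cast hdy
      linarith
    have hrh' : 2 * (((l + 1 : ℕ) : ℤ)) + (oo G x : ℤ) + (oo G y : ℤ) =
        2 + (oo G x : ℤ) * (R.T x : ℤ) + (oo G y : ℤ) * (R.T y : ℤ) := by exact_mod_cast hrh
    have e1' : (oo G x : ℤ) * (B1 : ℤ) = (g1 : ℤ) * (m1 : ℤ) := by exact_mod_cast e1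
    have e2' : (oo G y : ℤ) * (B2 : ℤ) = (g1 : ℤ) * (m2 : ℤ) := by exact_mod_cast e2
    rw [hdx', hdy'] at hγ
    linear_combination hγ - hrh' + e1' + e2'
  have hg1ne : (g1 : ℤ) ≠ 0 := by exact_mod_cast hg1pos.ne'
  have key2 := mul_left_cancel₀ hg1ne key
  have hm1one : m1 = 1 := by omega
  have hm2one : m2 = 1 := by omega
  have hb1n : b1 = n1 := by rw [hm1, hm1one, mul_one]
  have hb2n : b2 = n1 := by rw [hm2, hm2one, mul_one]
  have hGx := hG1 hb1n
  have hGy := hG2 hb2n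
  have htrans : ∀ w : X, (∀ a : G, ∃ x ∈ stabilizer G w, ∃ t ∈ thr G, a = x * t) →
      ∀ a : G, ∃ b ∈ thr G, b • w = a • w := by
    intro w hw a
    obtain ⟨s, hs, t, ht, hst⟩ := hw a⁻¹
    refine ⟨t⁻¹, Subgroup.inv_mem _ ht, ?_⟩
    have : a = t⁻¹ * s⁻¹ := by
      rw [← inv_inv a, hst]; group
    have hs' : s⁻¹ • w = w := by
      rw [inv_smul_eq_iff]; exact hs.symm
    rw [this, mul_smul, hs']
  refine ⟨htrans x hGx, htrans y hGy, ?_, ?_, ?_, hP⟩
  · rw [← hb1n]; exact hB1.symm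
  · rw [← hb2n]; exact hB2.symm
  · obtain ⟨c, hc, _, _, hgen⟩ := (hBA1 k G X (l + 1) R x).2.2.2.2.2.2.2.2.2
    refine ⟨c, fun b => ?_⟩
    obtain ⟨s, hs, t, ht, rfl⟩ := hGx b
    obtain ⟨p, hp, n, rfl⟩ := hgen s hs
    refine ⟨n, (c ^ n)⁻¹ * p * (c ^ n) * t, ?_, by group⟩
    refine Subgroup.mul_mem _ ?_ ht
    have := hN.conj_mem p (hP x hp) (c ^ n)⁻¹
    rwa [inv_inv] at this

end Pool.Agent.helper75.AU
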