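import Pool.Agent.helper75.AU.SpecR

set_option linter.unusedVariables false
set_option linter.unusedSectionVars false

namespace Pool.Agent.helper75.AU

open scoped Classical Pointwise
open Pool.Agent.helper53.AU MulAction

/-- S80 -/
theorem S80 : S80_stmt := by
  intro k G X _ _ _ _ _ _ l R x y c u h' e' u₁ h6 h2
  have hfact2 : Fact (Nat.Prime 2) := ⟨Nat.prime_two⟩
  set K : Subgroup G := K1 G with hK
  set R3 : Subgroup G := K ⊓ R.P x with hR3
  have hPst : R.P x ≤ stabilizer G x := by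
    intro s hs
    obtain ⟨t, _, rfl⟩ := hs
    exact t.2
  have hR3K : R3 ≤ K := inf_le_left
  have hR3st : R3 ≤ stabilizer G x := inf_le_right.trans hPst
  -- the index of R3 in K is 1 or 2
  have hdvd : Nat.card R3 ∣ Nat.card K := Subgroup.card_dvd_of_le hR3K
  obtain ⟨m, hm⟩ := hdvd
  have hR3pos : 0 < Nat.card R3 := Nat.card_pos
  have hKpos : 0 < Nat.card K := Nat.card_pos
  have hm2 : m = 1 ∨ m = 2 := by
    have h1 : Nat.card K ≤ 2 * Nat.card R3 := h6.k1card
    rw [hm] at h1 hKpos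
    have h3 : m ≤ 2 := by
      have : Nat.card R3 * m ≤ Nat.card R3 * 2 := by linarith
      exact Nat.le_of_mul_le_mul_left this hR3pos
    have h4 : 0 < m := Nat.pos_of_mul_pos_left hKpos |> fun h => by
      rcases Nat.eq_zero_or_pos m with h0 | h0
      · rw [h0, mul_zero] at hKpos; omega
      · exact h0
    omega
  rcases hm2 with rfl | rfl
  · rw [mul_one] at hm
    have : R3 = K := Subgroup.eq_of_le_of_card_ge hR3K hm.le
    rw [← this]; exact hR3st
  -- now |K| = 2 |R3|
  set G1 : Subgroup G := thr G with hG1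
  set B1 : Subgroup G := stabilizer G x ⊓ thr G with hB1
  -- Sylow 2-subgroup of B1, then of G1
  let S0 : Sylow 2 B1 := default
  let T0 : Subgroup G := (S0 : Subgroup B1).map B1.subtype
  have hT0B : T0 ≤ B1 := Subgroup.map_subtype_le _
  have hT0p : IsPGroup 2 T0 := S0.2.map _
  have hT0G1 : T0 ≤ G1 := hT0B.trans inf_le_right
  obtain ⟨S, hS⟩ := (hT0p.comap_subtype (K := G1)).exists_le_sylow
  let T : Subgroup G := (S : Subgroup G1).map G1.subtype
  have hTG1 : T ≤ G1 := Subgroup.map_subtype_le _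
  have hTp : IsPGroup 2 T := S.2.map _
  have hT0T : T0 ≤ T := by
    intro s hs
    exact ⟨⟨s, hT0G1 hs⟩, hS hs, rfl⟩
  have hTsub : T.subgroupOf G1 = (S : Subgroup G1) := by
    ext s
    rw [Subgroup.mem_subgroupOf]
    constructor
    · rintro ⟨t, ht, hts⟩
      have : t = s := Subtype.ext hts
      rwa [← this]
    · intro hs
      exact ⟨s, hs, rfl⟩
  have hTidx : ¬ 2 ∣ T.relIndex G1 := by
    have : T.relIndex G1 = (S : Subgroup G1).index := by
      rw [← hTsub]; rfl
    rw [this]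
    exact S.not_dvd_index
  have hcT : Nat.card T = Nat.card S := by
    exact Nat.card_congr ((S : Subgroup G1).equivMapOfInjective _ (Subgroup.subtype_injective G1)).symm.toEquiv
  have hcT0 : Nat.card T0 = Nat.card S0 := by
    exact Nat.card_congr ((S0 : Subgroup B1).equivMapOfInjective _ (Subgroup.subtype_injective B1)).symm.toEquiv
  have hcard : Nat.card T = 2 * Nat.card T0 := by
    rw [hcT, hcT0, S.card_eq_multiplicity, S0.card_eq_multiplicity]
    have h1 : Nat.card G1 = 2 * (Nat.card B1 * e') := by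
      rw [hG1, hB1, h6.cardG1, h6.cardB1]; ring
    have he0 : e' ≠ 0 := by have := h6.four; omega
    have hB0 : Nat.card B1 ≠ 0 := Nat.card_pos.ne'
    have h2' : (Nat.card G1).factorization 2 = (Nat.card B1).factorization 2 + 1 := by
      rw [h1, Nat.factorization_mul (by norm_num) (by positivity),
        Nat.factorization_mul hB0 he0]
      simp only [Finsupp.add_apply]
      rw [Nat.factorization_eq_zero_of_not_dvd h2.od, Nat.Prime.factorization_self Nat.prime_two]
      ring
    rw [h2', pow_succ, mul_comm]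
  -- T0 has index 2 in T, so contains the derived group
  have hidx : (T0.subgroupOf T).index = 2 := by
    have h1 := (T0.subgroupOf T).card_mul_index
    have h3 : Nat.card (T0.subgroupOf T) = Nat.card T0 :=
      Nat.card_congr (Subgroup.subgroupOfEquivOfLe hT0T).toEquiv
    rw [h3, hcard, mul_comm] at h1
    exact Nat.eq_of_mul_eq_mul_right Nat.card_pos h1
  have hcomm : ⁅T, T⁆ ≤ T0 := by
    rw [Subgroup.commutator_le]
    intro a ha b hb
    have h1 : ((⟨a, ha⟩ : T) * (⟨b, hb⟩ : T) * (⟨a, ha⟩ : T)⁻¹ * (⟨b, hb⟩ : T)⁻¹) ∈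
        T0.subgroupOf T := by
      rw [Subgroup.mul_mem_iff_of_index_two hidx, Subgroup.mul_mem_iff_of_index_two hidx,
        Subgroup.mul_mem_iff_of_index_two hidx, Subgroup.inv_mem_iff, Subgroup.inv_mem_iff]
      tauto
    exact h1
  -- an involution of K
  have h2K : 2 ∣ Nat.card K := by rw [hm]; exact dvd_mul_left _ _
  obtain ⟨w, hw⟩ := exists_prime_orderOf_dvd_card' 2 h2K
  have hwo : orderOf (w : G) = 2 := by rw [Subgroup.orderOf_coe, hw]
  have hwG1 : (w : G) ∈ G1 := (inf_le_right : (ph G).ker ⊓ thr G ≤ thr G) w.2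
  let w' : G1 := ⟨w, hwG1⟩
  have hzp : IsPGroup 2 (Subgroup.zpowers w') := by
    apply IsPGroup.of_card (n := 1)
    rw [Nat.card_zpowers, pow_one, ← Subgroup.orderOf_coe]
    exact hwo
  obtain ⟨S', hS'⟩ := hzp.exists_le_sylow
  obtain ⟨g, hg⟩ := MulAction.exists_smul_eq G1 S' S
  let z : G := (g : G) * w * (g : G)⁻¹
  have hzS : (g * w' * g⁻¹ : G1) ∈ (S : Subgroup G1) := by
    rw [← hg, Sylow.coe_subgroup_smul]
    have h1 : w' ∈ (S' : Subgroup G1) := hS' (Subgroup.mem_zpowers w')
    have h3 : MulAut.conj g • w' ∈ MulAut.conj g • (S' : Subgroup G1) :=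
      Subgroup.smul_mem_pointwise_smul _ _ _ h1
    simpa [MulAut.smul_def, MulAut.conj_apply] using h3
  have hzT : z ∈ T := ⟨g * w' * g⁻¹, hzS, rfl⟩
  have hthrN : (thr G).Normal := by
    refine ⟨fun n hn g => ?_⟩
    unfold thr at hn ⊢
    refine Subgroup.closure_induction (p := fun n _ => g * n * g⁻¹ ∈
      Subgroup.closure {x : G | ∃ n : ℕ, x ^ (3 ^ n) = 1}) ?_ ?_ ?_ ?_ hn
    · rintro x ⟨m, hm⟩
      apply Subgroup.subset_closure
      refine ⟨m, ?_⟩
      rw [conj_pow, hm, mul_one, mul_inv_cancel]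
    · rw [mul_one, mul_inv_cancel]; exact Subgroup.one_mem _
    · intro x y _ _ hx hy
      have e : g * (x * y) * g⁻¹ = (g * x * g⁻¹) * (g * y * g⁻¹) := by group
      rw [e]; exact Subgroup.mul_mem _ hx hy
    · intro x _ hx
      have e : g * x⁻¹ * g⁻¹ = (g * x * g⁻¹)⁻¹ := by group
      rw [e]; exact Subgroup.inv_mem _ hx
  have hzK : z ∈ K := by
    refine ⟨?_, ?_⟩
    · exact (MonoidHom.normal_ker (ph G)).conj_mem _ w.2.1 _
    · exact hthrN.conj_mem _ w.2.2 _
  have hzo : orderOf z = 2 := by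
    have h1 : z ^ 2 = 1 := by
      change ((g : G) * w * (g : G)⁻¹) ^ 2 = 1
      rw [conj_pow]
      have : (w : G) ^ 2 = 1 := by rw [← hwo]; exact pow_orderOf_eq_one _
      rw [this, mul_one, mul_inv_cancel]
    refine orderOf_eq_prime h1 ?_
    intro h3
    have h4 : (g : G) * w * (g : G)⁻¹ = 1 := h3
    rw [conj_eq_one_iff] at h4
    rw [h4, orderOf_one] at hwo
    omega
  have hzst : z ∈ stabilizer G x := by
    have h1 : z ∈ ⁅T, T⁆ := h6.k1t T hTG1 hTp hTidx z ⟨hzT, hzK⟩
    exact (hT0B (hcomm h1)).1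
  -- z is not in R3
  have hPp : IsPGroup 3 (R.P x) := by
    obtain ⟨S3, hS3⟩ := h6.two.syl
    rw [← hS3]; exact S3.2
  have hR3p : IsPGroup 3 R3 := hPp.to_le inf_le_right
  have hzR : z ∉ R3 := by
    intro hz
    obtain ⟨n, hn⟩ := hR3p ⟨z, hz⟩
    have h1 : z ^ (3 ^ n) = 1 := by simpa using congrArg Subtype.val hn
    have h3 : orderOf z ∣ 3 ^ n := orderOf_dvd_of_pow_eq_one h1
    rw [hzo] at h3
    have h4 := Nat.Prime.dvd_of_dvd_pow Nat.prime_two h3
    omega
  -- conclusion
  have hK' : K ⊓ stabilizer G x = K := by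
    apply Subgroup.eq_of_le_of_card_ge inf_le_left
    have h1 : R3 ≤ K ⊓ stabilizer G x := le_inf hR3K hR3st
    obtain ⟨a, ha⟩ := Subgroup.card_dvd_of_le h1
    have h3 : Nat.card (K ⊓ stabilizer G x : Subgroup G) ≠ Nat.card R3 := by
      intro h4
      have h5 : R3 = K ⊓ stabilizer G x := Subgroup.eq_of_le_of_card_ge h1 h4.le
      exact hzR (h5 ▸ ⟨hzK, hzst⟩)
    have h4 : 0 < Nat.card (K ⊓ stabilizer G x : Subgroup G) := Nat.card_pos
    have h5 : 2 ≤ a := by
      by_contra hlt
      have : a = 0 ∨ a = 1 := by omega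
      rcases this with rfl | rfl
      · rw [mul_zero] at ha; omega
      · rw [mul_one] at ha; exact h3 ha
    rw [ha, hm]
    exact Nat.mul_le_mul_left _ h5
  rw [← hK']
  exact inf_le_right

end Pool.Agent.helper75.AU
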