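import Pool.Agent.helper53.AU.SpecG2

namespace Pool.Agent.helper53.AU

open scoped Classical

/-- in a `ThreeCyc` subgroup of a finite group, the normal 3-subgroup has order the 3-part -/
theorem X2_card {L : Type} [Group L] [Finite L] (H P : Subgroup L) (c : L) (hPH : P ≤ H)
    (hc : c ∈ H) (hP : IsPGroup 3 P) (hn : ∀ x ∈ H, ∀ p ∈ P, x * p * x⁻¹ ∈ P)
    (hc3 : ¬ 3 ∣ orderOf c) (hx : ∀ x ∈ H, ∃ p ∈ P, ∃ n : ℕ, x = p * c ^ n) (m b : ℕ)
    (hb : ¬ 3 ∣ b) (hH : Nat.card H = 3 ^ m * b) : Nat.card P = 3 ^ m := by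
  obtain ⟨k, hk⟩ := (IsPGroup.iff_card.1 hP)
  -- the surjection P × zpowers c → H
  have h1 : ¬ 3 ∣ (P.subgroupOf H).index := by
    have hnorm : (P.subgroupOf H).Normal := by
      refine ⟨fun n hn' g => ?_⟩
      rw [Subgroup.mem_subgroupOf] at hn' ⊢
      exact hn g g.2 n hn'
    -- the quotient is generated by the class of c
    let q : H →* H ⧸ P.subgroupOf H := QuotientGroup.mk' _
    have hgen : ∀ y : H ⧸ P.subgroupOf H, y ∈ Subgroup.zpowers (q ⟨c, hc⟩) := by
      intro y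
      obtain ⟨x, rfl⟩ := QuotientGroup.mk'_surjective _ y
      obtain ⟨p, hp, n, hpn⟩ := hx x x.2
      refine ⟨(n : ℤ), ?_⟩
      have hpH : p ∈ H := hPH hp
      have e1 : x = ⟨p, hpH⟩ * (⟨c, hc⟩ : H) ^ n := Subtype.ext hpn
      have e2 : q ⟨p, hpH⟩ = 1 := (QuotientGroup.eq_one_iff _).2 hp
      change q ⟨c, hc⟩ ^ (n : ℤ) = q x
      rw [e1, map_mul, e2, one_mul, map_pow, zpow_natCast]
    have hcard : (P.subgroupOf H).index = orderOf (q ⟨c, hc⟩) := by
      rw [← Nat.card_zpowers]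
      have : Subgroup.zpowers (q ⟨c, hc⟩) = ⊤ := by
        rw [eq_top_iff]; exact fun y _ => hgen y
      rw [this, Subgroup.index, Nat.card_congr Subgroup.topEquiv.toEquiv]
    intro h3
    apply hc3
    rw [hcard] at h3
    refine h3.trans ((orderOf_map_dvd q _).trans ?_)
    have : orderOf (⟨c, hc⟩ : H) = orderOf c := by
      rw [← Subgroup.orderOf_coe]
    rw [this]
  have h2 : Nat.card P * (P.subgroupOf H).index = Nat.card H := by
    have := (P.subgroupOf H).card_mul_index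
    rw [← this]
    congr 1
    exact (Nat.card_congr (Subgroup.subgroupOfEquivOfLe hPH).toEquiv).symm
  rw [hk] at h2 ⊢
  rw [hH] at h2
  -- 3^k * i = 3^m * b, 3 ∤ i, 3 ∤ b
  have hp : Nat.Prime 3 := Nat.prime_three
  rcases lt_trichotomy k m with h | h | h
  · exfalso
    obtain ⟨d, rfl⟩ := Nat.exists_eq_add_of_lt h
    apply h1
    have : 3 ^ k * (P.subgroupOf H).index = 3 ^ k * (3 ^ (d + 1) * b) := by
      rw [h2]; ring
    have := Nat.eq_of_mul_eq_mul_left (pow_pos (by norm_num) k) this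
    rw [this, pow_succ]
    exact ⟨3 ^ d * b, by ring⟩
  · rw [h]
  · exfalso
    obtain ⟨d, rfl⟩ := Nat.exists_eq_add_of_lt h
    apply hb
    have : 3 ^ m * (3 ^ (d + 1) * (P.subgroupOf H).index) = 3 ^ m * b := by
      rw [← h2]; ring
    have := Nat.eq_of_mul_eq_mul_left (pow_pos (by norm_num) m) this
    rw [← this, pow_succ]
    exact ⟨3 ^ d * (P.subgroupOf H).index, by ring⟩

/-- the order of a 3-subgroup of a group of order `3 ^ j * b` -/
theorem X2_le {L : Type} [Group L] [Finite L] (Q K : Subgroup L) (hQK : Q ≤ K)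
    (hQ : IsPGroup 3 Q) (j b : ℕ) (hb : ¬ 3 ∣ b) (hK : Nat.card K = 3 ^ j * b) :
    Nat.card Q ≤ 3 ^ j := by
  obtain ⟨k, hk⟩ := (IsPGroup.iff_card.1 hQ)
  have h1 : Nat.card Q ∣ Nat.card K := Subgroup.card_dvd_of_le hQK
  rw [hk, hK] at h1
  have h2 : Nat.Coprime (3 ^ k) b := by
    apply Nat.Coprime.pow_left
    exact (Nat.Prime.coprime_iff_not_dvd Nat.prime_three).2 hb
  have h3 : 3 ^ k ∣ 3 ^ j := h2.dvd_of_dvd_mul_right h1
  rw [hk]
  exact Nat.le_of_dvd (pow_pos (by norm_num) j) h3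

/-- X2 -/
theorem X2 (hX1 : X1_stmt) : X2_stmt := by
  intro L Ω _ _ A hLL h2t α β z hαβ hzα hzβ hz3 hzc
  obtain ⟨c, b, j, _, _, hΩ, hb3, _, _, hstab, htwo, _⟩ := hX1 L Ω A hLL h2t
  have := hLL.finL
  have := hLL.finΩ
  have := hLL.faithful
  obtain ⟨P, d, hPH, hd, hP, hn, hd3, hx⟩ := hLL.stab α
  have hPcard : Nat.card P = 3 ^ (c + j) :=
    X2_card (MulAction.stabilizer L α) P d hPH hd hP hn hd3 hx (c + j) b hb3 (hstab α)
  -- elements of P commute with z
  have hPz : ∀ p ∈ P, p * z = z * p := by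
    intro p hp
    apply hzc p (hPH hp)
    obtain ⟨m, hm⟩ := hP ⟨p, hp⟩
    exact ⟨m, by simpa using congrArg Subtype.val hm⟩
  -- the orbit of β under P
  let K : Subgroup L := MulAction.stabilizer L α ⊓ MulAction.stabilizer L β
  have hK : Nat.card K = 3 ^ j * b := by
    rw [← htwo α β hαβ]
    refine Nat.card_congr ⟨fun g => ⟨g.1, g.2.1, g.2.2⟩, fun g => ⟨g.1, g.2.1, g.2.2⟩,
      fun g => rfl, fun g => rfl⟩
  have hQ : Nat.card (P ⊓ MulAction.stabilizer L β : Subgroup L) ≤ 3 ^ j := by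
    refine X2_le _ K ?_ ?_ j b hb3 hK
    · exact inf_le_inf hPH le_rfl
    · exact hP.to_le inf_le_left
  have horb : Nat.card (MulAction.orbit P β) * Nat.card (MulAction.stabilizer P β) = Nat.card P := by
    rw [← Nat.card_prod]
    exact Nat.card_congr (MulAction.orbitProdStabilizerEquivGroup P β)
  have hstabcard : Nat.card (MulAction.stabilizer P β) =
      Nat.card (P ⊓ MulAction.stabilizer L β : Subgroup L) := by
    refine Nat.card_congr ⟨fun g => ⟨g.1.1, g.1.2, g.2⟩, fun g => ⟨⟨g.1, g.2.1⟩, g.2.2⟩,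
      fun g => rfl, fun g => rfl⟩
  have horb2 : 3 ^ c ≤ Nat.card (MulAction.orbit P β) := by
    rw [hstabcard, hPcard, pow_add] at horb
    by_contra hlt
    push Not at hlt
    have h1 : Nat.card (MulAction.orbit P β) *
        Nat.card (P ⊓ MulAction.stabilizer L β : Subgroup L) < 3 ^ c * 3 ^ j := by
      calc _ ≤ Nat.card (MulAction.orbit P β) * 3 ^ j := Nat.mul_le_mul_left _ hQ
        _ < 3 ^ c * 3 ^ j := Nat.mul_lt_mul_of_pos_right hlt (pow_pos (by norm_num) j)
    omega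
  -- α is not in the orbit
  have hαn : α ∉ MulAction.orbit P β := by
    rintro ⟨p, hp⟩
    apply hαβ
    have h1 : (p : L) • β = α := hp
    have h2 : (p : L) • α = α := hPH p.2
    exact (MulAction.injective (p : L) (h2.trans h1.symm))
  have hall : ∀ γ : Ω, γ ≠ α → γ ∈ MulAction.orbit P β := by
    have hcard : (MulAction.orbit P β) = {γ : Ω | γ ≠ α} := by
      apply Set.eq_of_subset_of_ncard_le
      · intro γ hγ h
        exact hαn (h ▸ hγ)
      · have h1 : ({γ : Ω | γ ≠ α} : Set Ω) = {α}ᶜ := rfl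
        rw [h1, Set.ncard_compl, Set.ncard_singleton, hΩ]
        exact horb2
      · exact Set.toFinite _
    intro γ hγ
    rw [hcard]
    exact hγ
  have hfix : ∀ γ : Ω, z • γ = γ := by
    intro γ
    by_cases h : γ = α
    · rw [h, hzα]
    · obtain ⟨p, hp⟩ := hall γ h
      have hp' : (p : L) • β = γ := hp
      rw [← hp', ← mul_smul, ← hPz p p.2, mul_smul, hzβ]
  apply FaithfulSMul.eq_of_smul_eq_smul (α := Ω)
  intro γ
  rw [hfix γ, one_smul]

end Pool.Agent.helper53.AU
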