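import Pool.Agent.helper53.AU.SpecG2

namespace Pool.Agent.helper53.AU

open scoped Classical Pointwise

/-- orbit counting in the class PL -/
theorem RS1_card {L Ω : Type} [Group L] [MulAction L Ω] {A : Subgroup L} (h : PL L Ω A) (ω : Ω) :
    Nat.card L = Nat.card Ω * Nat.card (MulAction.stabilizer L ω) := by
  have := h.finL
  have := h.finΩ
  have := h.trans
  have h1 : Nat.card (MulAction.orbit L ω) * Nat.card (MulAction.stabilizer L ω) = Nat.card L := by
    rw [← Nat.card_prod]
    exact Nat.card_congr (MulAction.orbitProdStabilizerEquivGroup L ω)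
  have h2 : Nat.card (MulAction.orbit L ω) = Nat.card Ω := by
    rw [MulAction.orbit_eq_univ]
    exact Nat.card_congr (Equiv.Set.univ Ω)
  rw [← h1, h2]

theorem RS1_pos {L Ω : Type} [Group L] [MulAction L Ω] {A : Subgroup L} (h : PL L Ω A) :
    0 < Nat.card Ω := by
  have := h.finΩ
  have := h.nonempty
  exact Nat.card_pos

/-- every element of a group generated by 3-elements has a power `3 ^ n` in the derived group -/
theorem RS1_three {L : Type} [Group L] (h : GenThree L) (x : L) :
    ∃ n : ℕ, x ^ (3 ^ n) ∈ commutator L := by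
  have hx : x ∈ Subgroup.closure {x : L | ∃ n : ℕ, x ^ (3 ^ n) = 1} := by
    rw [show Subgroup.closure {x : L | ∃ n : ℕ, x ^ (3 ^ n) = 1} = ⊤ from h]; trivial
  have key : ∀ y : L, (∃ n : ℕ, y ^ (3 ^ n) ∈ commutator L) ↔
      ∃ n : ℕ, (Abelianization.of y) ^ (3 ^ n) = 1 := by
    intro y
    refine exists_congr fun n => ?_
    rw [← map_pow]
    constructor
    · intro h'
      exact (QuotientGroup.eq_one_iff _).2 h'
    · intro h'
      exact (QuotientGroup.eq_one_iff _).1 h'
  refine Subgroup.closure_induction (p := fun y _ => ∃ n : ℕ, y ^ (3 ^ n) ∈ commutator L)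
    ?_ ?_ ?_ ?_ hx
  · rintro y ⟨n, hn⟩
    exact ⟨n, by rw [hn]; exact Subgroup.one_mem _⟩
  · exact ⟨0, by simp [Subgroup.one_mem]⟩
  · intro y z _ _ hy hz
    rw [key] at hy hz ⊢
    obtain ⟨n, hn⟩ := hy
    obtain ⟨m, hm⟩ := hz
    refine ⟨n + m, ?_⟩
    rw [map_mul, mul_pow, pow_add, pow_mul, hn, one_pow, one_mul, mul_comm, pow_mul, hm, one_pow]
  · intro y _ hy
    obtain ⟨n, hn⟩ := hy
    refine ⟨n, ?_⟩
    rw [inv_pow]
    exact Subgroup.inv_mem _ hn

/-- the orbits of a normal subgroup of odd order are the orbits of its intersection with `A` -/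
theorem RS1_orb {L Ω : Type} [Group L] [MulAction L Ω] {A : Subgroup L} (h : PL L Ω A)
    (O : Subgroup L) (hO : O.Normal) (hodd : Odd (Nat.card O)) :
    Nat.card (O ⊓ A : Subgroup L) ∣ Nat.card Ω ∧
    (∀ ω : Ω, Nat.card O = Nat.card (O ⊓ A : Subgroup L) *
      Nat.card (O ⊓ MulAction.stabilizer L ω : Subgroup L)) ∧
    ∀ (ω : Ω), ∀ x ∈ O, ∃ a ∈ O ⊓ A, x • ω = a • ω := by
  have hfin := h.finL
  have hfinΩ := h.finΩ
  have hne := h.nonempty
  have hΩpos := RS1_pos h
  -- for every point
  have main : ∀ ω : Ω, Nat.card (MulAction.orbit O ω) ∣ Nat.card Ω ∧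
      Nat.card (MulAction.orbit O ω) = Nat.card (O ⊓ A : Subgroup L) ∧
      Nat.card O = Nat.card (MulAction.orbit O ω) *
        Nat.card (O ⊓ MulAction.stabilizer L ω : Subgroup L) := by
    intro ω
    set m := Nat.card (MulAction.orbit O ω) with hm
    set s := Nat.card (MulAction.stabilizer L ω) with hs
    set o' := Nat.card (O ⊓ MulAction.stabilizer L ω : Subgroup L) with ho'
    have hspos : 0 < s := Nat.card_pos
    have ho'pos : 0 < o' := Nat.card_pos
    have hmpos : 0 < m := by
      have : Nonempty (MulAction.orbit O ω) := ⟨⟨ω, MulAction.mem_orbit_self ω⟩⟩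
      exact Nat.card_pos
    have h1 : Nat.card O = m * o' := by
      have h2 : m * Nat.card (MulAction.stabilizer O ω) = Nat.card O := by
        rw [hm, ← Nat.card_prod]
        exact Nat.card_congr (MulAction.orbitProdStabilizerEquivGroup O ω)
      have h3 : Nat.card (MulAction.stabilizer O ω) = o' := by
        refine Nat.card_congr ⟨fun g => ⟨g.1.1, g.1.2, g.2⟩, fun g => ⟨⟨g.1, g.2.1⟩, g.2.2⟩,
          fun g => rfl, fun g => rfl⟩
      rw [← h2, h3]
    have hL := RS1_card h ω
    -- m divides |Ω|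
    have hmΩ : m ∣ Nat.card Ω := by
      have h4 : O.relIndex (MulAction.stabilizer L ω ⊔ O) = O.relIndex (MulAction.stabilizer L ω) :=
        Subgroup.relIndex_sup_right _ _
      have h5 : o' * O.relIndex (MulAction.stabilizer L ω) = s := by
        have := (O.subgroupOf (MulAction.stabilizer L ω)).card_mul_index
        have h6 : Nat.card (O.subgroupOf (MulAction.stabilizer L ω)) = o' := by
          refine Nat.card_congr ⟨fun g => ⟨g.1.1, g.2, g.1.2⟩, fun g => ⟨⟨g.1, g.2.2⟩, g.2.1⟩,
            fun g => rfl, fun g => rfl⟩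
        rw [h6] at this
        exact this
      have h7 : Nat.card O * O.relIndex (MulAction.stabilizer L ω ⊔ O) =
          Nat.card (MulAction.stabilizer L ω ⊔ O : Subgroup L) := by
        have := (O.subgroupOf (MulAction.stabilizer L ω ⊔ O)).card_mul_index
        have h6 : Nat.card (O.subgroupOf (MulAction.stabilizer L ω ⊔ O)) = Nat.card O :=
          Nat.card_congr (Subgroup.subgroupOfEquivOfLe le_sup_right).toEquiv
        rw [h6] at this
        exact this
      have h8 : Nat.card (MulAction.stabilizer L ω ⊔ O : Subgroup L) ∣ Nat.card L :=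
        Subgroup.card_subgroup_dvd_card _
      rw [← h7, h4, h1, hL] at h8
      have h9 : m * o' * O.relIndex (MulAction.stabilizer L ω) = m * s := by
        rw [mul_assoc, h5]
      rw [h9] at h8
      exact Nat.dvd_of_mul_dvd_mul_right hspos h8
    have hcop : Nat.Coprime s (Nat.card Ω) := h.copr ω
    -- m divides |O ⊓ A|
    have hmodd : Odd m := by
      rw [h1] at hodd
      exact (Nat.odd_mul.1 hodd).1
    have hApos : 0 < Nat.card A := Nat.card_pos
    have hdiv : m ∣ Nat.card (O ⊓ A : Subgroup L) := by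
      have h4 : O.relIndex (A ⊔ O) = O.relIndex A := Subgroup.relIndex_sup_right _ _
      have h5 : Nat.card (O ⊓ A : Subgroup L) * O.relIndex A = Nat.card A := by
        have := (O.subgroupOf A).card_mul_index
        have h6 : Nat.card (O.subgroupOf A) = Nat.card (O ⊓ A : Subgroup L) := by
          refine Nat.card_congr ⟨fun g => ⟨g.1.1, g.2, g.1.2⟩, fun g => ⟨⟨g.1, g.2.2⟩, g.2.1⟩,
            fun g => rfl, fun g => rfl⟩
        rw [h6] at this
        exact this
      have h6 : O.relIndex A ∣ O.index := Subgroup.relIndex_dvd_index_of_normal _ _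
      have h7 : Nat.card O * O.index = Nat.card L := O.card_mul_index
      -- |O| |A| ∣ |O ⊓ A| |L|
      have h8 : Nat.card O * Nat.card A ∣ Nat.card (O ⊓ A : Subgroup L) * Nat.card L := by
        rw [← h5, ← h7]
        obtain ⟨j, hj⟩ := h6
        rw [hj]
        exact ⟨j, by ring⟩
      rw [h1, hL, ← h.cardA] at h8
      have h9 : m * o' * Nat.card A ∣ (2 * Nat.card (O ⊓ A : Subgroup L) * s) * Nat.card A := by
        have h9a : 2 * Nat.card (O ⊓ A : Subgroup L) * s * Nat.card A =
            Nat.card (O ⊓ A : Subgroup L) * (2 * Nat.card A * s) := by ring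
        rw [h9a]; exact h8
      have h10 : m * o' ∣ 2 * Nat.card (O ⊓ A : Subgroup L) * s :=
        Nat.dvd_of_mul_dvd_mul_right hApos h9
      have h11 : m ∣ 2 * Nat.card (O ⊓ A : Subgroup L) * s := dvd_trans (dvd_mul_right m o') h10
      have h12 : Nat.Coprime m s := Nat.Coprime.coprime_dvd_left hmΩ hcop.symm
      have h13 : m ∣ 2 * Nat.card (O ⊓ A : Subgroup L) := h12.dvd_of_dvd_mul_right h11
      have h14 : Nat.Coprime m 2 := Nat.coprime_two_right.2 hmodd
      exact h14.dvd_of_dvd_mul_left h13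
    -- |O ⊓ A| ≤ m
    have hle : Nat.card (O ⊓ A : Subgroup L) ≤ m := by
      let f : (O ⊓ A : Subgroup L) → MulAction.orbit O ω := fun a =>
        ⟨(a : L) • ω, ⟨⟨a, a.2.1⟩, rfl⟩⟩
      have hf : Function.Injective f := by
        intro a b hab
        have h15 : (a : L) • ω = (b : L) • ω := congrArg Subtype.val hab
        have h16 : ((b : L)⁻¹ * a) • ω = ω := by
          rw [mul_smul, h15, inv_smul_smul]
        have h17 := h.semireg ((b : L)⁻¹ * a) (A.mul_mem (A.inv_mem b.2.2) a.2.2) ω h16
        apply Subtype.ext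
        rw [inv_mul_eq_one] at h17
        exact h17.symm
      exact Nat.card_le_card_of_injective f hf
    exact ⟨hmΩ, Nat.le_antisymm (Nat.le_of_dvd Nat.card_pos hdiv) hle, h1⟩
  obtain ⟨ω0⟩ := hne
  refine ⟨?_, ?_, ?_⟩
  · rw [← (main ω0).2.1]; exact (main ω0).1
  · intro ω
    rw [← (main ω).2.1]; exact (main ω).2.2
  · intro ω x hx
    let f : (O ⊓ A : Subgroup L) → MulAction.orbit O ω := fun a =>
      ⟨(a : L) • ω, ⟨⟨a, a.2.1⟩, rfl⟩⟩
    have hf : Function.Injective f := by
      intro a b hab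
      have h15 : (a : L) • ω = (b : L) • ω := congrArg Subtype.val hab
      have h16 : ((b : L)⁻¹ * a) • ω = ω := by
        rw [mul_smul, h15, inv_smul_smul]
      have h17 := h.semireg ((b : L)⁻¹ * a) (A.mul_mem (A.inv_mem b.2.2) a.2.2) ω h16
      apply Subtype.ext
      rw [inv_mul_eq_one] at h17
      exact h17.symm
    have hfb : Function.Bijective f := by
      rw [Nat.bijective_iff_injective_and_card]
      exact ⟨hf, (main ω).2.1.symm⟩
    obtain ⟨a, ha⟩ := hfb.2 ⟨x • ω, ⟨⟨x, hx⟩, rfl⟩⟩
    exact ⟨a, a.2, (congrArg Subtype.val ha).symm⟩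

end Pool.Agent.helper53.AU
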