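import Pool.Agent.helper78.AU.RS1

namespace Pool.Agent.helper53.AU

open scoped Classical Pointwise

/-- `O ⊓ A` for `O` normal of odd order -/
theorem RS2_hall (hNH : NH_stmt) (hLO : LO_stmt) {L Ω : Type} [Group L] [MulAction L Ω]
    {A : Subgroup L} (h : PL L Ω A) (O : Subgroup L) (hO : O.Normal)
    (hodd : Odd (Nat.card O)) :
    (∀ x ∈ O, (∀ a ∈ O ⊓ A, x * a = a * x) → x ∈ O ⊓ A) ∧
    (∀ x ∈ O, x ^ (Nat.card (O ⊓ A : Subgroup L)) = 1 → x ∈ O ⊓ A) := by
  have hfin := h.finL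
  have hfinΩ := h.finΩ
  have hne := h.nonempty
  have hff := h.faithful
  have hcyc := h.cyc
  obtain ⟨hd, hc, ho⟩ := RS1_orb h O hO hodd
  have hKcyc : IsCyclic (O ⊓ A : Subgroup L) := by
    have : IsCyclic ((O ⊓ A : Subgroup L).subgroupOf A) := inferInstance
    exact isCyclic_of_surjective (Subgroup.subgroupOfEquivOfLe (inf_le_right : O ⊓ A ≤ A))
      (Subgroup.subgroupOfEquivOfLe (inf_le_right : O ⊓ A ≤ A)).surjective
  have hcop : ∀ ω : Ω, Nat.Coprime (Nat.card (O ⊓ MulAction.stabilizer L ω : Subgroup L))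
      (Nat.card (O ⊓ A : Subgroup L)) := by
    intro ω
    have h1 : Nat.card (O ⊓ MulAction.stabilizer L ω : Subgroup L) ∣
        Nat.card (MulAction.stabilizer L ω) := Subgroup.card_dvd_of_le inf_le_right
    exact (Nat.Coprime.coprime_dvd_left h1 (Nat.Coprime.coprime_dvd_right hd (h.copr ω)))
  have hLOapp := hLO L Ω O (O ⊓ A) inf_le_left hKcyc hodd
    (fun ω x hx => ho ω x hx) (fun a ha ω => h.semireg a ha.2 ω) (by
      intro ω
      have h2 : Nat.card {x : L // x ∈ O ∧ x • ω = ω} =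
          Nat.card (O ⊓ MulAction.stabilizer L ω : Subgroup L) :=
        Nat.card_congr (Equiv.subtypeEquivRight fun x => by
          simp [Subgroup.mem_inf, MulAction.mem_stabilizer_iff])
      rw [h2]
      exact hcop ω)
  refine ⟨hLOapp.2, ?_⟩
  obtain ⟨ω0⟩ := hne
  refine hNH L (O ⊓ A) O inf_le_left hLOapp.1 ?_
  have hKpos : 0 < Nat.card (O ⊓ A : Subgroup L) := Nat.card_pos
  rw [hc ω0, Nat.mul_div_cancel_left _ hKpos]
  exact (hcop ω0).symm

/-- `oc L` is normalised by `Γ` -/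
theorem RS2_ocnormal (hOC : OC_stmt) {Γ : Type} [Group Γ] [Finite Γ] (L : Subgroup Γ)
    [L.Normal] (γ : Γ) (x : L) (hx : x ∈ oc L) : MulAut.conjNormal γ x ∈ oc L := by
  obtain ⟨hn, hodd, hmax, -⟩ := hOC L
  have h1 : ((oc L).map (MulAut.conjNormal γ : MulAut L).toMonoidHom).Normal :=
    Subgroup.Normal.map hn _ (MulAut.conjNormal γ : MulAut L).surjective
  have h2 : Nat.card ((oc L).map (MulAut.conjNormal γ : MulAut L).toMonoidHom) =
      Nat.card (oc L) :=
    Nat.card_congr ((oc L).equivMapOfInjective _ (MulAut.conjNormal γ : MulAut L).injective).symm.toEquiv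
  exact hmax _ h1 (by rw [h2]; exact hodd) ⟨x, hx, rfl⟩

/-- section 9, first step: `L` has no nontrivial normal subgroup of odd order -/
theorem RS2_oc (hSY : SY_stmt) (hTZ : TZ_stmt) (hOC : OC_stmt) (hNH : NH_stmt) (hCM : CM_stmt)
    (hLO : LO_stmt) {Γ Ω : Type} [Group Γ] [MulAction Γ Ω] [Finite Γ] (L : Subgroup Γ)
    (A : Subgroup L) [L.Normal] (hcomm : ⁅(⊤ : Subgroup Γ), L⁆ = L) (h3 : GenThree L)
    (h : PL L Ω A) : oc L = ⊥ := by
  have hfin := h.finL
  have hcyc := h.cyc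
  obtain ⟨hn, hodd, hmax, -⟩ := hOC L
  obtain ⟨hZ, hH⟩ := RS2_hall hNH hLO h (oc L) hn hodd
  have hdvd := (RS1_orb h (oc L) hn hodd).1
  set K : Subgroup L := oc L ⊓ A with hK
  -- `Γ` normalises `K`
  have hΓK : ∀ (γ : Γ) (x : L), x ∈ K → MulAut.conjNormal γ x ∈ K := by
    intro γ x hx
    refine hH _ (RS2_ocnormal hOC L γ x hx.1) ?_
    rw [← map_pow]
    have : x ^ (Nat.card K) = 1 := by
      have h7 : (⟨x, hx⟩ : K) ^ (Nat.card K) = 1 := pow_card_eq_one'
      exact congrArg Subtype.val h7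
    rw [this, map_one]
  have hKcyc : IsCyclic K := by
    have : IsCyclic (K.subgroupOf A) := inferInstance
    exact isCyclic_of_surjective (Subgroup.subgroupOfEquivOfLe (inf_le_right : K ≤ A))
      (Subgroup.subgroupOfEquivOfLe (inf_le_right : K ≤ A)).surjective
  set K' : Subgroup Γ := K.map L.subtype with hK'
  have hK'cyc : IsCyclic K' :=
    isCyclic_of_surjective (K.equivMapOfInjective L.subtype L.subtype_injective)
      (K.equivMapOfInjective L.subtype L.subtype_injective).surjective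
  have hΓK' : ∀ γ : Γ, ∀ a ∈ K', γ * a * γ⁻¹ ∈ K' := by
    rintro γ _ ⟨x, hx, rfl⟩
    exact ⟨MulAut.conjNormal γ x, hΓK γ x hx, by simp [MulAut.conjNormal_apply]⟩
  -- `L` centralises `K`
  have hcent : L ≤ Subgroup.centralizer (K' : Set Γ) := by
    rw [← hcomm, Subgroup.commutator_le]
    intro γ _ l _
    rw [Subgroup.mem_centralizer_iff]
    intro a ha
    have := hCM Γ K' hK'cyc γ l (hΓK' γ) (hΓK' l) a ha
    rw [commutatorElement_def]
    exact this.symm
  have hcentL : ∀ x : L, ∀ a ∈ K, x * a = a * x := by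
    intro x a ha
    have h1 := hcent x.2
    rw [Subgroup.mem_centralizer_iff] at h1
    apply Subtype.ext
    exact (h1 a ⟨a, ha, rfl⟩).symm
  have hOK : oc L ≤ K := fun x hx => hZ x hx (fun a ha => hcentL x a ha)
  by_contra hne
  have hone : Nat.card (oc L) ≠ 1 := by
    intro h1
    exact hne (Subgroup.card_eq_one.1 h1)
  obtain ⟨r, hr, hrd⟩ := Nat.exists_prime_and_dvd hone
  have hr2 : r ≠ 2 := by
    rintro rfl
    exact (Nat.not_even_iff_odd.2 hodd) (even_iff_two_dvd.2 hrd)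
  have hcardK : Nat.card (oc L) ∣ Nat.card K := Subgroup.card_dvd_of_le hOK
  have hrΩ : r ∣ Nat.card Ω := (hrd.trans hcardK).trans hdvd
  have hr3 : r ≠ 3 := by
    rintro rfl
    exact h.three hrΩ
  have hr5 : 5 ≤ r := by
    have h2 := hr.two_le
    have h4 : r ≠ 4 := by rintro rfl; norm_num at hr
    omega
  have : Fact r.Prime := ⟨hr⟩
  obtain ⟨z0, hz0⟩ := exists_prime_orderOf_dvd_card' r hrd
  set z : L := (z0 : L) with hz
  have hzo : orderOf z = r := by rw [hz, Subgroup.orderOf_coe]; exact hz0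
  have hzO : z ∈ oc L := z0.2
  have hzK : z ∈ K := hOK hzO
  have hzp : IsPGroup r (Subgroup.zpowers z) := by
    apply IsPGroup.of_card (n := 1)
    rw [Nat.card_zpowers, hzo, pow_one]
  obtain ⟨S, hS⟩ := hzp.exists_le_sylow
  have hScyc : IsCyclic S := (hSY L Ω A h).1 r hr5 ⟨hr⟩ S
  have hzS : z ∈ (S : Subgroup L) := hS (Subgroup.mem_zpowers z)
  have hzc : z ∈ Subgroup.center L := by
    rw [Subgroup.mem_center_iff]
    intro g
    exact hcentL g z hzK
  obtain ⟨n, hn3⟩ := RS1_three h3 z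
  have hzcomm : z ∈ commutator L := by
    have hcop : Nat.Coprime (3 ^ n) (orderOf z) := by
      rw [hzo]
      refine Nat.Coprime.pow_left n ?_
      rw [Nat.coprime_primes Nat.prime_three hr]
      exact hr3.symm
    have h5 : z ∈ Subgroup.zpowers (z ^ (3 ^ n)) := by
      have : Subgroup.zpowers (z ^ (3 ^ n)) = Subgroup.zpowers z := by
        apply Subgroup.eq_of_le_of_card_ge
        · rw [Subgroup.zpowers_le]
          exact Subgroup.pow_mem _ (Subgroup.mem_zpowers z) _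
        · rw [Nat.card_zpowers, Nat.card_zpowers, hcop.symm.orderOf_pow]
      rw [this]
      exact Subgroup.mem_zpowers z
    have h6 : Subgroup.zpowers (z ^ (3 ^ n)) ≤ commutator L := by
      rw [Subgroup.zpowers_le]; exact hn3
    exact h6 h5
  have hfinal := hTZ L r S z hzc hzcomm hzS
  have hbot : ⁅(S : Subgroup L), (S : Subgroup L)⁆ = ⊥ := by
    rw [Subgroup.commutator_eq_bot_iff_le_centralizer]
    intro x hx
    rw [Subgroup.mem_centralizer_iff]
    intro y hy
    have h8 : (⟨y, hy⟩ : S) * ⟨x, hx⟩ = (⟨x, hx⟩ : S) * ⟨y, hy⟩ := by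
      obtain ⟨c, hc⟩ := hScyc.exists_generator
      obtain ⟨i, hi⟩ := Subgroup.mem_zpowers_iff.1 (hc (⟨y, hy⟩ : S))
      obtain ⟨j, hj⟩ := Subgroup.mem_zpowers_iff.1 (hc (⟨x, hx⟩ : S))
      rw [← hi, ← hj, ← zpow_add, ← zpow_add, add_comm]
    exact congrArg Subtype.val h8
  rw [hbot, Subgroup.mem_bot] at hfinal
  rw [hfinal, orderOf_one] at hzo
  omega

end Pool.Agent.helper53.AU
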