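import Pool.Agent.helper78.AU.RS2

namespace Pool.Agent.helper53.AU

open scoped Classical Pointwise

theorem RS3_t (hAB : AB_stmt) {L Ω : Type} [Group L] [MulAction L Ω] {A : Subgroup L}
    (h : PL L Ω A) {t : L} (ht : DihW A t) :
    IsInv t ∧ ∀ a ∈ twoPart A, t * a * t⁻¹ = a⁻¹ ∧ IsInv (a * t) := by
  have := h.finL
  obtain ⟨htt, htA, hinv⟩ := ht
  obtain ⟨-, h2, -⟩ := hAB L A h.cyc
  refine ⟨⟨htt, ?_⟩, ?_⟩
  · rintro rfl
    exact htA A.one_mem
  · intro a ha
    obtain ⟨haA, n, hn⟩ := (h2 a).1 ha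
    have h3 := hinv a haA ⟨n, hn⟩
    have h4 : t⁻¹ = t := inv_eq_of_mul_eq_one_left htt
    refine ⟨h3, ?_, ?_⟩
    · rw [h4] at h3
      calc a * t * (a * t) = a * (t * a * t) := by group
        _ = a * a⁻¹ := by rw [h3]
        _ = 1 := mul_inv_cancel a
    · intro h5
      apply htA
      rw [mul_eq_one_iff_inv_eq] at h5
      rw [← h5]
      exact A.inv_mem haA

theorem RS3_tau (hAB : AB_stmt) {L Ω : Type} [Group L] [MulAction L Ω] {A : Subgroup L}
    (h : PL L Ω A) {τ : L} (hτA : τ ∈ A) (hτ : IsInv τ) : τ ∈ twoPart A := by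
  have := h.finL
  obtain ⟨-, h2, -⟩ := hAB L A h.cyc
  exact (h2 τ).2 ⟨hτA, 1, by rw [pow_one, pow_two]; exact hτ.1⟩

/-- the order of `L` -/
theorem RS3_card (hAB : AB_stmt) {L Ω : Type} [Group L] [MulAction L Ω] {A : Subgroup L}
    (h : PL L Ω A) : ∃ m : ℕ, Odd m ∧ Nat.card L = 2 * Nat.card (twoPart A) * m := by
  have := h.finL
  obtain ⟨ω⟩ := h.nonempty
  obtain ⟨-, -, h3, h4, -⟩ := hAB L A h.cyc
  refine ⟨Nat.card (oddPart A) * Nat.card (MulAction.stabilizer L ω), ?_, ?_⟩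
  · refine h4.mul ?_
    have h5 := h.copr ω
    have h6 : 2 ∣ Nat.card Ω := dvd_trans (by norm_num) h.four
    exact Nat.coprime_two_right.1 (Nat.Coprime.coprime_dvd_right h6 h5)
  · rw [RS1_card h ω, ← h.cardA, ← h3]
    ring

/-- a Sylow 2-subgroup containing the 2-part of `A` -/
theorem RS3_sylow (hAB : AB_stmt) {L Ω : Type} [Group L] [MulAction L Ω] {A : Subgroup L}
    (h : PL L Ω A) : ∃ S : Sylow 2 L, twoPart A ≤ (S : Subgroup L) ∧
      Nat.card S ≤ 2 * Nat.card (twoPart A) := by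
  have := h.finL
  obtain ⟨-, -, h3, h4, ⟨n, hn⟩, -⟩ := hAB L A h.cyc
  have hp : IsPGroup 2 (twoPart A) := IsPGroup.of_card hn
  obtain ⟨S, hS⟩ := hp.exists_le_sylow
  refine ⟨S, hS, ?_⟩
  obtain ⟨m, hm, hc⟩ := RS3_card hAB h
  obtain ⟨k, hk⟩ := IsPGroup.iff_card.1 S.isPGroup'
  have h6 : Nat.card S ∣ Nat.card L := Subgroup.card_subgroup_dvd_card _
  rw [hc] at h6
  have h7 : Nat.Coprime (Nat.card S) m := by
    rw [hk]
    exact Nat.Coprime.pow_left k (Nat.coprime_two_left.2 hm)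
  have h8 : Nat.card S ∣ 2 * Nat.card (twoPart A) := h7.dvd_of_dvd_mul_right h6
  exact Nat.le_of_dvd (Nat.mul_pos (by norm_num) Nat.card_pos) h8

/-- a minimal normal subgroup -/
theorem RS3_min {L : Type} [Group L] [Finite L] (x : L) (hx : x ≠ 1) :
    ∃ E : Subgroup L, E.Normal ∧ E ≠ ⊥ ∧
      ∀ N : Subgroup L, N.Normal → N ≤ E → N = ⊥ ∨ N = E := by
  have hne : ∃ n : ℕ, ∃ E : Subgroup L, E.Normal ∧ E ≠ ⊥ ∧ Nat.card E = n := by
    refine ⟨_, ⊤, inferInstance, ?_, rfl⟩
    intro h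
    exact hx (Subgroup.mem_bot.1 (h ▸ Subgroup.mem_top x))
  obtain ⟨E, hE, hEb, hEc⟩ := Nat.find_spec hne
  refine ⟨E, hE, hEb, ?_⟩
  intro N hN hNE
  by_cases hNb : N = ⊥
  · exact Or.inl hNb
  · right
    have h1 := Nat.find_min' hne ⟨N, hN, hNb, rfl⟩
    exact Subgroup.eq_of_le_of_card_ge hNE (by rw [hEc]; exact h1)

/-- all involutions lie in a normal subgroup which contains one -/
theorem RS3_inv (hP1 : P1_stmt) {L Ω : Type} [Group L] [MulAction L Ω] {A : Subgroup L}
    (h : PL L Ω A) (E : Subgroup L) (hE : E.Normal) (e : L) (he : e ∈ E) (hee : IsInv e) :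
    ∀ s : L, IsInv s → s ∈ E := by
  intro s hs
  obtain ⟨g, rfl⟩ := (hP1 L Ω A h).2 e s hee hs
  exact hE.conj_mem e he g

theorem RS3_two (hAB : AB_stmt) {L Ω : Type} [Group L] [MulAction L Ω] {A : Subgroup L}
    (h : PL L Ω A) (E : Subgroup L) (hinv : ∀ s : L, IsInv s → s ∈ E) : twoPart A ≤ E := by
  obtain ⟨t, ht⟩ := h.dih
  obtain ⟨h1, h2⟩ := RS3_t hAB h ht
  intro a ha
  have h3 := E.mul_mem (hinv _ (h2 a ha).2) (E.inv_mem (hinv _ h1))
  rwa [mul_inv_cancel_right] at h3

/-- the dihedral group of order `2 |twoPart A|` -/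
theorem RS3_dih (hAB : AB_stmt) {L Ω : Type} [Group L] [MulAction L Ω] {A : Subgroup L}
    (h : PL L Ω A) (E : Subgroup L) (hinv : ∀ s : L, IsInv s → s ∈ E) :
    2 * Nat.card (twoPart A) ∣ Nat.card E := by
  have := h.finL
  obtain ⟨t, ht⟩ := h.dih
  obtain ⟨h1, h2⟩ := RS3_t hAB h ht
  have hA2 : twoPart A ≤ A := by
    intro x hx
    exact (((hAB L A h.cyc).2.1 x).1 hx).1
  have htt : t⁻¹ = t := inv_eq_of_mul_eq_one_left h1.1
  have hconj : ∀ a ∈ twoPart A, t * a * t = a⁻¹ := by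
    intro a ha
    have := (h2 a ha).1
    rwa [htt] at this
  let D : Subgroup L :=
    { carrier := {x | x ∈ twoPart A ∨ x * t ∈ twoPart A}
      one_mem' := Or.inl (Subgroup.one_mem _)
      mul_mem' := by
        rintro x y (hx | hx) (hy | hy)
        · exact Or.inl (Subgroup.mul_mem _ hx hy)
        · right
          have := Subgroup.mul_mem _ hx hy
          rwa [← mul_assoc] at this
        · right
          have h3 := Subgroup.mul_mem _ hx (Subgroup.inv_mem _ hy)
          rw [← hconj y hy] at h3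
          have h4 : x * t * (t * y * t) = x * y * t := by
            calc x * t * (t * y * t) = x * (t * t) * y * t := by group
              _ = x * y * t := by rw [h1.1, mul_one]
          rwa [h4] at h3
        · left
          have h3 := Subgroup.mul_mem _ hx (Subgroup.inv_mem _ hy)
          rw [← hconj _ hy] at h3
          have h4 : x * t * (t * (y * t) * t) = x * y := by
            calc x * t * (t * (y * t) * t) = x * (t * t) * y * (t * t) := by group
              _ = x * y := by rw [h1.1, mul_one, mul_one]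
          rwa [h4] at h3
      inv_mem' := by
        rintro x (hx | hx)
        · exact Or.inl (Subgroup.inv_mem _ hx)
        · right
          have h3 := Subgroup.inv_mem _ (Subgroup.inv_mem _ hx)
          rw [← hconj _ hx] at h3
          have h4 : (t * (x * t) * t)⁻¹ = x⁻¹ * t := by
            calc (t * (x * t) * t)⁻¹ = (t * t)⁻¹ * x⁻¹ * t⁻¹ := by group
              _ = x⁻¹ * t := by rw [h1.1, inv_one, one_mul, htt]
          rwa [h4] at h3 }
  have hDE : D ≤ E := by
    rintro x (hx | hx)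
    · exact RS3_two hAB h E hinv hx
    · have h3 := (h2 _ hx).2
      have h4 : x * t * t = x := by rw [mul_assoc, h1.1, mul_one]
      rw [h4] at h3
      exact hinv x h3
  have hDc : Nat.card D = 2 * Nat.card (twoPart A) := by
    let f : (twoPart A ⊕ twoPart A) → D := fun x =>
      match x with
      | Sum.inl a => ⟨a, Or.inl a.2⟩
      | Sum.inr a => ⟨a * t, Or.inr (by rw [mul_assoc, h1.1, mul_one]; exact a.2)⟩
    have hf : Function.Bijective f := by
      constructor
      · rintro (a | a) (b | b) hab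
        · have h3 : (a : L) = b := congrArg (fun z : D => (z : L)) hab
          rw [Subtype.ext h3]
        · exfalso
          have h3 : (a : L) = b * t := congrArg (fun z : D => (z : L)) hab
          apply ht.2.1
          have h4 : t = (b : L)⁻¹ * a := by rw [h3, inv_mul_cancel_left]
          rw [h4]
          exact A.mul_mem (A.inv_mem (hA2 b.2)) (hA2 a.2)
        · exfalso
          have h3 : (a : L) * t = b := congrArg (fun z : D => (z : L)) hab
          apply ht.2.1
          have h4 : t = (a : L)⁻¹ * b := by rw [← h3, inv_mul_cancel_left]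
          rw [h4]
          exact A.mul_mem (A.inv_mem (hA2 a.2)) (hA2 b.2)
        · have h3 : (a : L) * t = b * t := congrArg (fun z : D => (z : L)) hab
          rw [Subtype.ext (mul_right_cancel h3)]
      · rintro ⟨x, hx | hx⟩
        · exact ⟨Sum.inl ⟨x, hx⟩, rfl⟩
        · refine ⟨Sum.inr ⟨x * t, hx⟩, ?_⟩
          apply Subtype.ext
          show x * t * t = x
          rw [mul_assoc, h1.1, mul_one]
    rw [← Nat.card_congr (Equiv.ofBijective f hf), Nat.card_sum]
    ring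
  rw [← hDc]
  exact Subgroup.card_dvd_of_le hDE

theorem RS3_index (hAB : AB_stmt) {L Ω : Type} [Group L] [MulAction L Ω] {A : Subgroup L}
    (h : PL L Ω A) (E : Subgroup L) (hinv : ∀ s : L, IsInv s → s ∈ E) :
    Odd E.index ∧ ∃ k : ℕ, Odd k ∧ Nat.card E = 2 * Nat.card (twoPart A) * k := by
  have := h.finL
  obtain ⟨m, hm, hc⟩ := RS3_card hAB h
  obtain ⟨k, hk⟩ := RS3_dih hAB h E hinv
  have h1 := E.card_mul_index
  have hpos : 0 < 2 * Nat.card (twoPart A) := Nat.mul_pos (by norm_num) Nat.card_pos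
  rw [hc, hk, mul_assoc (2 * Nat.card (twoPart A)) k] at h1
  have h2 := Nat.eq_of_mul_eq_mul_left hpos h1
  rw [← h2, Nat.odd_mul] at hm
  exact ⟨hm.2, k, hm.1, hk⟩

/-- 2-elements lie in `E` -/
theorem RS3_mem {L : Type} [Group L] [Finite L] (E : Subgroup L) [E.Normal] (p q : ℕ)
    (hpq : Nat.Coprime p q) (x : L) (h1 : x ^ p ∈ E) (h2 : x ^ q ∈ E) : x ∈ E := by
  have h3 : ((x : L ⧸ E)) ^ p = 1 := by
    rw [← QuotientGroup.mk_pow]
    exact (QuotientGroup.eq_one_iff _).2 h1
  have h4 : ((x : L ⧸ E)) ^ q = 1 := by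
    rw [← QuotientGroup.mk_pow]
    exact (QuotientGroup.eq_one_iff _).2 h2
  have h5 : orderOf (x : L ⧸ E) ∣ 1 := by
    rw [← hpq.gcd_eq_one]
    exact Nat.dvd_gcd (orderOf_dvd_of_pow_eq_one h3) (orderOf_dvd_of_pow_eq_one h4)
  rw [Nat.dvd_one, orderOf_eq_one_iff] at h5
  exact (QuotientGroup.eq_one_iff _).1 h5

/-- conjugacy of the involutions inside `E` -/
theorem RS3_conj (hTT : TT_stmt) (hAB : AB_stmt) {L Ω : Type} [Group L] [MulAction L Ω]
    {A : Subgroup L} (h : PL L Ω A) (E : Subgroup L) (hEs : NASimple E)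
    (hinv : ∀ s : L, IsInv s → s ∈ E) {τ : L} (hτA : τ ∈ A) (hτ : IsInv τ) :
    ∀ s : L, IsInv s → ∃ g ∈ E, g * τ * g⁻¹ = s := by
  have := h.finL
  intro s hs
  obtain ⟨-, k, hk, hkc⟩ := RS3_index hAB h E hinv
  have hA2E := RS3_two hAB h E hinv
  set M : Subgroup E := (twoPart A).subgroupOf E with hM
  have hMc : Nat.card M = Nat.card (twoPart A) :=
    Nat.card_congr (Subgroup.subgroupOfEquivOfLe hA2E).toEquiv
  have hMi : M.index = 2 * k := by
    have h1 := M.card_mul_index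
    rw [hMc, hkc] at h1
    have hpos : 0 < Nat.card (twoPart A) := Nat.card_pos
    apply Nat.eq_of_mul_eq_mul_left hpos
    rw [h1]; ring
  have hsE := hinv s hs
  by_cases hcase : ∃ g : E, g⁻¹ * (⟨s, hsE⟩ : E) * g ∈ M
  · obtain ⟨g, hg⟩ := hcase
    have h2 : (g : L)⁻¹ * s * g ∈ twoPart A := hg
    have h3 : (g : L)⁻¹ * s * g ∈ A := (((hAB L A h.cyc).2.1 _).1 h2).1
    have h4 : IsInv ((g : L)⁻¹ * s * g) := by
      refine ⟨?_, ?_⟩
      · calc (g : L)⁻¹ * s * g * ((g : L)⁻¹ * s * g) = (g : L)⁻¹ * (s * s) * g := by group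
          _ = 1 := by rw [hs.1]; group
      · intro h5
        apply hs.2
        calc s = g * ((g : L)⁻¹ * s * g) * (g : L)⁻¹ := by group
          _ = 1 := by rw [h5]; group
    obtain ⟨-, -, -, -, -, -, -, -, huniq, -⟩ := hAB L A h.cyc
    have h6 := huniq _ _ h3 hτA h4 hτ
    exact ⟨g, g.2, by rw [← h6]; group⟩
  · exfalso
    push Not at hcase
    obtain ⟨f, hf⟩ := hTT E M ⟨s, hsE⟩ ⟨k, hMi, hk⟩ (Subtype.ext hs.1) hcase
    obtain ⟨hsimple, a, b, hab⟩ := hEs
    rcases hsimple.eq_bot_or_eq_top_of_normal f.ker inferInstance with hb | hb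
    · have hinj : Function.Injective f := (MonoidHom.ker_eq_bot_iff f).1 hb
      apply hab
      apply hinj
      rw [map_mul, map_mul, mul_comm]
    · have h7 : (⟨s, hsE⟩ : E) ∈ f.ker := by rw [hb]; trivial
      rw [MonoidHom.mem_ker, hf] at h7
      exact absurd h7 (by decide)

end Pool.Agent.helper53.AU
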